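import Pool.Agent.Helper91.Inj.G2d

/-!
G2, part 5: no loops, and the theorem.
-/

set_option autoImplicit false

namespace Pool.Agent.Helper91.Inj

open Classical Pool.Agent.Helper65.Inj

section

variable {V : Type} {U : Finset V} {E : V → V → Prop} {X : Finset V} {y z : V → V} {x a b a' b' : V}

/-- the set of points without `a`, `b` -/
noncomputable def U2 (U : Finset V) (a b : V) : Finset V := U.filter fun v => v ≠ a ∧ v ≠ b

theorem mem_U2 {v : V} : v ∈ U2 U a b ↔ v ∈ U ∧ v ≠ a ∧ v ≠ b := by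
  unfold U2
  rw [Finset.mem_filter]

/-- the end of the `K4` case: the set `a', b', p, q` is deleted too -/
theorem case2_fin (h : VL U E X y z) (ih : IHn V U.card) (t : Tn X y z x a b) (ha' : a' ∈ U)
    (haa : E a a') (hax : a' ≠ x) (hab : a' ≠ b) (hb' : b' ∈ U) (hbb : E b b') (hbx : b' ≠ x) (hba : b' ≠ a)
    (hne : a' ≠ b') {p q : V} (hp : p ∈ U) (hq : q ∈ U) (hpq : p ≠ q) (pa : p ≠ a) (pb : p ≠ b) (qa : q ≠ a)
    (qb : q ≠ b) (px : p ≠ x) (qx : q ≠ x) (pa' : p ≠ a') (pb' : p ≠ b') (qa' : q ≠ a') (qb' : q ≠ b') (e1 : E a' p)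
    (e2 : E a' q) (e3 : E b' p) (e4 : E b' q) (e5 : E p q) (xa' : a' ∉ X) (xb' : b' ∉ X) (xq : q ∉ X)
    (htk : ∀ x' s t, Tn X y z x' s t → x' ≠ x → x' ≠ p → s ≠ a' ∧ s ≠ b' ∧ s ≠ p ∧ s ≠ q) : Col3 U E := by
  have f := h.tf t
  have na : ∀ w ∈ U, E a w → w = x ∨ w = b ∨ w = a' := fun w hw h1 =>
    nb3 f.da f.xU f.bU ha' f.ax f.ab haa f.nxb hax.symm hab.symm hw h1
  have nb : ∀ w ∈ U, E b w → w = x ∨ w = a ∨ w = b' := fun w hw h1 =>
    nb3 f.db f.xU f.aU hb' f.bx f.ba hbb f.nxa hbx.symm hba.symm hw h1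
  have na' : ∀ w ∈ U, E a' w → w = a ∨ w = p ∨ w = q := fun w hw h1 =>
    nb3 (h.d3 a' ha' xa') f.aU hp hq (h.sym _ _ haa) e1 e2 pa.symm qa.symm hpq hw h1
  have nb' : ∀ w ∈ U, E b' w → w = b ∨ w = p ∨ w = q := fun w hw h1 =>
    nb3 (h.d3 b' hb' xb') f.bU hp hq (h.sym _ _ hbb) e3 e4 pb.symm qb.symm hpq hw h1
  have nq : ∀ w ∈ U, E q w → w = a' ∨ w = b' ∨ w = p := fun w hw h1 =>
    nb3 (h.d3 q hq xq) ha' hb' hp (h.sym _ _ e2) (h.sym _ _ e4) (h.sym _ _ e5) hne pa'.symm pb'.symm hw h1
  have dp : dg U E p ≤ 4 := by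
    by_cases hpX : p ∈ X
    · exact h.d4 p hpX
    · exact le_trans (h.d3 p hp hpX) (by norm_num)
  let P : V → Prop := fun v => (v ≠ a ∧ v ≠ b) ∧ v ≠ a' ∧ v ≠ b' ∧ v ≠ p ∧ v ≠ q
  have hmem : ∀ v, v ∈ U.filter P ↔ v ∈ U ∧ (v ≠ a ∧ v ≠ b) ∧ v ≠ a' ∧ v ≠ b' ∧ v ≠ p ∧ v ≠ q := fun v =>
    Finset.mem_filter
  have hVL : VL (U.filter P) E (X1 X x p) y z := by
    refine h.restr (Finset.filter_subset _ _) (fun v hv => (mem_X1.mp hv).1) ?_ ?_ ?_
    · intro v hv
      rw [mem_X1] at hv
      rw [hmem]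
      exact ⟨h.sub hv.1, ⟨fun h1 => f.aX (h1 ▸ hv.1), fun h1 => f.bX (h1 ▸ hv.1)⟩, fun h1 => xa' (h1 ▸ hv.1),
        fun h1 => xb' (h1 ▸ hv.1), hv.2.2, fun h1 => xq (h1 ▸ hv.1)⟩
    · intro x' hx'
      rw [mem_X1] at hx'
      obtain ⟨hx', h1, h2⟩ := hx'
      have key : ∀ {s t' : V}, Tn X y z x' s t' → s ∈ U.filter P := by
        intro s t' ts
        have fs := h.tf ts
        obtain ⟨g1, -, g3, -⟩ := h.ne t ts h1.symm
        rw [hmem]
        exact ⟨fs.aU, ⟨g1.symm, g3.symm⟩, htk x' s t' ts h1 h2⟩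
      exact ⟨key (tn hx'), key (tn hx').symm⟩
    · intro v hv hvX hvX'
      rw [hmem] at hv
      have h1 : v = x := by
        by_contra h1
        exact hvX' (mem_X1.mpr ⟨hvX, h1, hv.2.2.2.2.1⟩)
      subst h1
      have h2 := dg_lt (U' := U.filter P) (U := U) (E := E) (Finset.filter_subset _ _) f.aU (fun h2 =>
        ((hmem a).mp h2).2.1.1 rfl) f.xa
      have h3 := f.dx
      omega
  obtain ⟨c, hc⟩ := ih _ _ _ _ _ (card_sub (Finset.filter_subset _ _) f.aU fun h1 => ((hmem a).mp h1).2.1.1 rfl) hVL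
  obtain ⟨β, hβ, hβ2⟩ : ∃ β, β ≠ c x ∧ ∀ w ∈ U, E p w → w ≠ a' → w ≠ b' → w ≠ q → c w ≠ β := by
    by_cases hex : ∃ n ∈ U, E p n ∧ n ≠ a' ∧ n ≠ b' ∧ n ≠ q
    · obtain ⟨n, hn, hpn, n1, n2, n3⟩ := hex
      obtain ⟨β, h1, h2⟩ := fin3_a (c x) (c n)
      refine ⟨β, h1, fun w hw hpw w1 w2 w3 => ?_⟩
      rcases nb4 dp ha' hb' hq hn (h.sym _ _ e1) (h.sym _ _ e3) e5 hpn hne qa'.symm n1.symm qb'.symm n2.symm n3.symm
        hw hpw with h3 | h3 | h3 | h3
      · exact absurd h3 w1
      · exact absurd h3 w2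
      · exact absurd h3 w3
      · rw [h3]
        exact h2.symm
    · push Not at hex
      obtain ⟨β, h1, -⟩ := fin3_a (c x) (c x)
      exact ⟨β, h1, fun w hw hpw w1 w2 w3 => absurd (hex w hw hpw w1 w2) w3⟩
  obtain ⟨γ, hγ, hγ2⟩ := fin3_a (c x) β
  let c1 : V → Fin 3 := fun v => if v = a' ∨ v = b' then c x else if v = p then β else if v = q then γ else c v
  have c1a : c1 a' = c x := if_pos (Or.inl rfl)
  have c1b : c1 b' = c x := if_pos (Or.inr rfl)
  have c1p : c1 p = β := by
    show (if p = a' ∨ p = b' then c x else if p = p then β else if p = q then γ else c p) = β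
    rw [if_neg, if_pos rfl]
    rintro (h1 | h1)
    · exact pa' h1
    · exact pb' h1
  have c1q : c1 q = γ := by
    show (if q = a' ∨ q = b' then c x else if q = p then β else if q = q then γ else c q) = γ
    rw [if_neg, if_neg hpq.symm, if_pos rfl]
    rintro (h1 | h1)
    · exact qa' h1
    · exact qb' h1
  have c1c : ∀ v, v ≠ a' → v ≠ b' → v ≠ p → v ≠ q → c1 v = c v := by
    intro v h1 h2 h3 h4
    show (if v = a' ∨ v = b' then c x else if v = p then β else if v = q then γ else c v) = c v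
    rw [if_neg, if_neg h3, if_neg h4]
    rintro (h5 | h5)
    · exact h1 h5
    · exact h2 h5
  refine ext_tok h.sym f.nab f.nxa f.nxb (h.nn haa).symm hab hba (h.nn hbb).symm na nb (c := c1) ?_ ?_
  · have hone : ∀ u ∈ U, (u = a' ∨ u = b' ∨ u = p ∨ u = q) → ∀ v ∈ U, v ≠ a → v ≠ b → E u v → c1 u ≠ c1 v := by
      rintro u hu (rfl | rfl | rfl | rfl) v hv v1 v2 huv
      · rcases na' v hv huv with h1 | h1 | h1
        · exact absurd h1 v1
        · rw [h1, c1a, c1p]
          exact hβ.symm
        · rw [h1, c1a, c1q]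
          exact hγ.symm
      · rcases nb' v hv huv with h1 | h1 | h1
        · exact absurd h1 v2
        · rw [h1, c1b, c1p]
          exact hβ.symm
        · rw [h1, c1b, c1q]
          exact hγ.symm
      · by_cases h1 : v = a'
        · rw [h1, c1a, c1p]
          exact hβ
        · by_cases h2 : v = b'
          · rw [h2, c1b, c1p]
            exact hβ
          · by_cases h3 : v = q
            · rw [h3, c1q, c1p]
              exact hγ2.symm
            · rw [c1p, c1c v h1 h2 (h.nn huv).symm h3]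
              exact (hβ2 v hv huv h1 h2 h3).symm
      · rcases nq v hv huv with h1 | h1 | h1
        · rw [h1, c1a, c1q]
          exact hγ
        · rw [h1, c1b, c1q]
          exact hγ
        · rw [h1, c1p, c1q]
          exact hγ2
    intro u hu u1 u2 v hv v1 v2 huv
    by_cases h1 : u = a' ∨ u = b' ∨ u = p ∨ u = q
    · exact hone u hu h1 v hv v1 v2 huv
    · by_cases h2 : v = a' ∨ v = b' ∨ v = p ∨ v = q
      · exact (hone v hv h2 u hu u1 u2 (h.sym _ _ huv)).symm
      · push Not at h1 h2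
        rw [c1c u h1.1 h1.2.1 h1.2.2.1 h1.2.2.2, c1c v h2.1 h2.2.1 h2.2.2.1 h2.2.2.2]
        exact hc u ((hmem u).mpr ⟨hu, ⟨u1, u2⟩, h1⟩) v ((hmem v).mpr ⟨hv, ⟨v1, v2⟩, h2⟩) huv
  · rintro ⟨-, h1⟩
    apply h1
    rw [c1b, c1c x hax.symm hbx.symm px.symm qx.symm]

theorem g2case2 (h : VL U E X y z) (ih : IHn V U.card) (t : Tn X y z x a b)
    (hL : ∀ x a b x₂ a₂ b₂ o, ¬ Lp U E X y z x a b x₂ a₂ b₂ o) (ha' : a' ∈ U)
    (haa : E a a') (hax : a' ≠ x) (hab : a' ≠ b) (hb' : b' ∈ U) (hbb : E b b') (hbx : b' ≠ x) (hba : b' ≠ a) :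
    Col3 U E := by
  have f := h.tf t
  have na : ∀ w ∈ U, E a w → w = x ∨ w = b ∨ w = a' := fun w hw h1 =>
    nb3 f.da f.xU f.bU ha' f.ax f.ab haa f.nxb hax.symm hab.symm hw h1
  have nb : ∀ w ∈ U, E b w → w = x ∨ w = a ∨ w = b' := fun w hw h1 =>
    nb3 f.db f.xU f.aU hb' f.bx f.ba hbb f.nxa hbx.symm hba.symm hw h1
  have hne : a' ≠ b' := fun h1 => hax (f.cn a' ha' haa (h1 ▸ hbb))
  have hU : U2 U a b ⊆ U := fun v hv => (mem_U2.mp hv).1
  have haU : a' ∈ U2 U a b := mem_U2.mpr ⟨ha', (h.nn haa).symm, hab⟩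
  have hbU : b' ∈ U2 U a b := mem_U2.mpr ⟨hb', hba, (h.nn hbb).symm⟩
  have hxU : x ∈ U2 U a b := mem_U2.mpr ⟨f.xU, f.nxa, f.nxb⟩
  have hx2 := dg_lt2 hU f.aU (fun h2 => (mem_U2.mp h2).2.1 rfl) f.xa f.bU (fun h2 => (mem_U2.mp h2).2.2 rfl) f.xb f.nab
  have hdx := f.dx
  have hsub : X.erase x ⊆ U2 U a b := by
    intro v hv
    rw [Finset.mem_erase] at hv
    exact mem_U2.mpr ⟨h.sub hv.2, fun h1 => f.aX (h1 ▸ hv.2), fun h1 => f.bX (h1 ▸ hv.2)⟩
  have htU : ∀ {x' s t' : V}, Tn X y z x' s t' → x' ≠ x → s ∈ U2 U a b := by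
    intro x' s t' ts h1
    obtain ⟨g1, -, g3, -⟩ := h.ne t ts h1.symm
    exact mem_U2.mpr ⟨(h.tf ts).aU, g1.symm, g3.symm⟩
  -- the end: a colouring with different colours at `a'` and `b'`
  have fin : ∀ c : V → Fin 3, (∀ u ∈ U2 U a b, ∀ v ∈ U2 U a b, E u v → c u ≠ c v) → c a' ≠ c b' → Col3 U E := by
    intro c hc h1
    refine ext_tok h.sym f.nab f.nxa f.nxb (h.nn haa).symm hab hba (h.nn hbb).symm na nb (c := c) ?_ fun h2 => h1 h2.1
    intro u hu u1 u2 v hv v1 v2 huv
    exact hc u (mem_U2.mpr ⟨hu, u1, u2⟩) v (mem_U2.mpr ⟨hv, v1, v2⟩) huv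
  by_cases hE : E a' b'
  · have hVL : VL (U2 U a b) E (X.erase x) y z := by
      refine h.restr hU (Finset.erase_subset _ _) hsub ?_ ?_
      · intro x' hx'
        rw [Finset.mem_erase] at hx'
        exact ⟨htU (tn hx'.2) hx'.1, htU (tn hx'.2).symm hx'.1⟩
      · intro v hv hvX hvX'
        have h1 : v = x := by
          by_contra h1
          exact hvX' (Finset.mem_erase.mpr ⟨h1, hvX⟩)
        subst h1
        omega
    obtain ⟨c, hc⟩ := ih _ _ _ _ _ (card_sub hU f.aU fun h1 => (mem_U2.mp h1).2.1 rfl) hVL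
    exact fin c hc (hc a' haU b' hbU hE)
  · -- degrees
    have hle : ∀ v, dg (U2 U a b) (ade E a' b') v ≤ dg U E v := by
      intro v
      by_cases h1 : v = a'
      · subst h1
        apply dg_le_inj fun w => if w = b' then a else w
        · intro w hw h2
          beta_reduce
          by_cases h3 : w = b'
          · rw [if_pos h3]
            exact ⟨f.aU, h.sym _ _ haa⟩
          · rw [if_neg h3]
            rcases h2 with h2 | ⟨-, h2⟩ | ⟨h2, -⟩
            · exact ⟨hU hw, h2⟩
            · exact absurd h2 h3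
            · exact absurd h2 hne
        · intro w hw w' hw' _ _ h3
          beta_reduce at h3
          by_cases h4 : w = b'
          · by_cases h5 : w' = b'
            · exact h4.trans h5.symm
            · rw [if_pos h4, if_neg h5] at h3
              exact absurd h3.symm (mem_U2.mp hw').2.1
          · by_cases h5 : w' = b'
            · rw [if_neg h4, if_pos h5] at h3
              exact absurd h3 (mem_U2.mp hw).2.1
            · rw [if_neg h4, if_neg h5] at h3
              exact h3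
      · by_cases h1' : v = b'
        · subst h1'
          apply dg_le_inj fun w => if w = a' then b else w
          · intro w hw h2
            beta_reduce
            by_cases h3 : w = a'
            · rw [if_pos h3]
              exact ⟨f.bU, h.sym _ _ hbb⟩
            · rw [if_neg h3]
              rcases h2 with h2 | ⟨h2, -⟩ | ⟨-, h2⟩
              · exact ⟨hU hw, h2⟩
              · exact absurd h2.symm hne
              · exact absurd h2 h3
          · intro w hw w' hw' _ _ h3
            beta_reduce at h3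
            by_cases h4 : w = a'
            · by_cases h5 : w' = a'
              · exact h4.trans h5.symm
              · rw [if_pos h4, if_neg h5] at h3
                exact absurd h3.symm (mem_U2.mp hw').2.2
            · by_cases h5 : w' = a'
              · rw [if_neg h4, if_pos h5] at h3
                exact absurd h3 (mem_U2.mp hw).2.2
              · rw [if_neg h4, if_neg h5] at h3
                exact h3
        · exact dg_mono hU fun w _ h2 => ade_l h2 h1 h1'
    have hxd : dg (U2 U a b) (ade E a' b') x ≤ 2 := by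
      have h1 : dg (U2 U a b) (ade E a' b') x ≤ dg (U2 U a b) E x :=
        dg_mono (fun _ h1 => h1) fun w _ h2 => ade_l h2 hax.symm hbx.symm
      omega
    have hd3 : ∀ v ∈ U2 U a b, v ∉ X → dg (U2 U a b) (ade E a' b') v ≤ 3 := fun v hv hvX =>
      le_trans (hle v) (h.d3 v (hU hv) hvX)
    by_cases hK : NoK4 (U2 U a b) (ade E a' b')
    · have hcn : ∀ {x' s t' : V}, Tn X y z x' s t' → x' ≠ x → ∀ w ∈ U, ade E a' b' s w → E t' w → w = x' := by
        intro x' s t' ts hx' w hw h1 h2
        have fs := h.tf ts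
        rcases h1 with h1 | ⟨h1, h3⟩ | ⟨h1, h3⟩
        · exact fs.cn w hw h1 h2
        · -- s = a', w = b'
          by_contra hwx
          exact hL x b a x' t' s b' ⟨t.symm, ts.symm, hx'.symm, hb', h1 ▸ haa, hbb, h.sym _ _ (h3 ▸ h2), hbx,
            h3 ▸ hwx⟩
        · -- s = b', w = a'
          by_contra hwx
          exact hL x a b x' t' s a' ⟨t, ts.symm, hx'.symm, ha', h1 ▸ hbb, haa, h.sym _ _ (h3 ▸ h2), hax, h3 ▸ hwx⟩
      have hVL : VL (U2 U a b) (ade E a' b') (X.erase x) y z := {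
        sym := ade_symm h.sym
        irr := ade_irr h.irr hne
        sub := hsub
        tk := by
          intro x' hx'
          rw [Finset.mem_erase] at hx'
          have f' := h.tf (tn hx'.2)
          exact ⟨htU (tn hx'.2) hx'.1, htU (tn hx'.2).symm hx'.1, fun h3 => f'.aX (Finset.mem_erase.mp h3).2,
            fun h3 => f'.bX (Finset.mem_erase.mp h3).2, Or.inl f'.xa, Or.inl f'.xb, Or.inl f'.ab⟩
        dis := fun x' hx' x'' hx'' => h.dis x' (Finset.mem_erase.mp hx').2 x'' (Finset.mem_erase.mp hx'').2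
        d4 := fun x' hx' => le_trans (hle x') (h.d4 x' (Finset.mem_erase.mp hx').2)
        d3 := by
          intro v hv hvX
          by_cases h1 : v = x
          · subst h1
            omega
          · exact hd3 v hv fun h2 => hvX (Finset.mem_erase.mpr ⟨h1, h2⟩)
        cn := by
          intro x' hx' w hw h1 h2
          rw [Finset.mem_erase] at hx'
          have f' := h.tf (tn hx'.2)
          rcases h2 with h2 | h2
          · exact hcn (tn hx'.2) hx'.1 w (hU hw) h1 h2
          · rcases h1 with h1 | h1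
            · exact hcn (tn hx'.2).symm hx'.1 w (hU hw) (Or.inr h2) h1
            · exfalso
              rcases h1 with ⟨h1, h3⟩ | ⟨h1, h3⟩ <;> rcases h2 with ⟨h2, h4⟩ | ⟨h2, h4⟩
              · exact f'.nab (h1.trans h2.symm)
              · exact hne (h4.symm.trans h3)
              · exact hne (h3.symm.trans h4)
              · exact f'.nab (h1.trans h2.symm)
        k4 := hK }
      obtain ⟨c, hc⟩ := ih _ _ _ _ _ (card_sub hU f.aU fun h1 => (mem_U2.mp h1).2.1 rfl) hVL
      exact fin c (fun u hu v hv huv => hc u hu v hv (Or.inl huv)) (hc a' haU b' hbU (Or.inr (Or.inl ⟨rfl, rfl⟩)))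
    · rw [noK4_iff (ade_symm h.sym) (ade_irr h.irr hne)] at hK
      push Not at hK
      obtain ⟨K, hK⟩ := hK
      obtain ⟨haK, hbK, -⟩ := ade_K hU h hK
      obtain ⟨p, q, hp, hq, hpq, pa', pb', qa', qb', hall⟩ := hK.two haK hbK hne
      have e1 : E a' p := ade_r (hK.ad a' haK p hp pa'.symm) pa' pb'
      have e2 : E a' q := ade_r (hK.ad a' haK q hq qa'.symm) qa' qb'
      have e3 : E b' p := ade_r (hK.ad b' hbK p hp pb'.symm) pa' pb'
      have e4 : E b' q := ade_r (hK.ad b' hbK q hq qb'.symm) qa' qb'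
      have e5 : E p q := ade_r (hK.ad p hp q hq hpq) qa' qb'
      have hxK : x ∉ K := by
        intro h1
        have h2 := hK.dg3 h1
        omega
      have px : p ≠ x := fun h1 => hxK (h1 ▸ hp)
      have qx : q ≠ x := fun h1 => hxK (h1 ▸ hq)
      obtain ⟨hpU, pa, pb⟩ := mem_U2.mp (hK.sub hp)
      obtain ⟨hqU, qa, qb⟩ := mem_U2.mp (hK.sub hq)
      -- tokens meeting `K` are inside `K`
      have hin1 : ∀ {x' s t' : V}, Tn X y z x' s t' → x' ≠ x → s ∈ K → x' ∈ K ∧ t' ∈ K := by
        intro x' s t' ts hx' hs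
        have fs := h.tf ts
        have h1 := hd3 s (hK.sub hs) fs.aX
        exact ⟨hK.nb hs h1 (hsub (Finset.mem_erase.mpr ⟨hx', fs.hx⟩)) (Or.inl fs.ax),
          hK.nb hs h1 (htU ts.symm hx') (Or.inl fs.ab)⟩
      have hin2 : ∀ {x' s t' : V}, Tn X y z x' s t' → x' ≠ x → x' ∈ K → s ∈ K ∧ t' ∈ K := by
        intro x' s t' ts hx' hxK'
        have fs := h.tf ts
        by_cases h1 : s ∈ K
        · exact ⟨h1, (hin1 ts hx' h1).2⟩
        · by_cases h2 : t' ∈ K
          · exact ⟨(hin1 ts.symm hx' h2).2, h2⟩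
          · exfalso
            have h3 : insert s (insert t' (K.erase x')) ⊆ (U2 U a b).filter fun w => ade E a' b' x' w := by
              intro w hw
              rw [Finset.mem_insert, Finset.mem_insert, Finset.mem_erase] at hw
              rw [Finset.mem_filter]
              rcases hw with rfl | rfl | ⟨hw1, hw2⟩
              · exact ⟨htU ts hx', Or.inl fs.xa⟩
              · exact ⟨htU ts.symm hx', Or.inl fs.xb⟩
              · exact ⟨hK.sub hw2, hK.ad x' hxK' w hw2 hw1.symm⟩
            have h4 := Finset.card_le_card h3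
            rw [Finset.card_insert_of_notMem, Finset.card_insert_of_notMem, Finset.card_erase_of_mem hxK', hK.c4] at h4
            · have h5 : ((U2 U a b).filter fun w => ade E a' b' x' w).card ≤ dg U E x' := hle x'
              have h6 := fs.dx
              omega
            · exact fun h5 => h2 (Finset.mem_of_mem_erase h5)
            · rw [Finset.mem_insert]
              rintro (h5 | h5)
              · exact fs.nab h5
              · exact h1 (Finset.mem_of_mem_erase h5)
      -- the heavy point is `p` or `q`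
      have hheavy : ∀ {x' s t' : V}, Tn X y z x' s t' → x' ≠ x → x' ∈ K → x' = p ∨ x' = q := by
        intro x' s t' ts hx' hxK'
        have fs := h.tf ts
        obtain ⟨hs, ht⟩ := hin2 ts hx' hxK'
        have key : ∀ {d d' : V}, ¬ E d d' → E d' p → E d' q → d' ∈ U → d ≠ d' →
            (∀ v ∈ K, v = d ∨ v = d' ∨ v = p ∨ v = q) → x' ≠ d := by
          intro d d' hdd hp' hq' hd' hdne hall' hxd
          have h1 : ∀ {s t' : V}, Tn X y z x' s t' → s ∈ K → s = p ∨ s = q := by
            intro s t' ts hs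
            have fs := h.tf ts
            rcases hall' s hs with h2 | h2 | h2 | h2
            · exact absurd (hxd.trans h2.symm) fs.nxa
            · exact absurd (h2 ▸ hxd ▸ fs.xa) hdd
            · exact Or.inl h2
            · exact Or.inr h2
          have h2 : ∀ w, (w = p ∨ w = q) → E w d' := by
            rintro w (rfl | rfl)
            · exact h.sym _ _ hp'
            · exact h.sym _ _ hq'
          have h3 := fs.cn d' hd' (h2 s (h1 ts hs)) (h2 t' (h1 ts.symm ht))
          exact hdne (hxd.symm.trans h3.symm)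
        have k1 : x' ≠ a' := key hE e3 e4 hb' hne hall
        have k2 : x' ≠ b' := key (fun h1 => hE (h.sym _ _ h1)) e1 e2 ha' hne.symm fun v hv => by
          rcases hall v hv with h1 | h1 | h1 | h1
          · exact Or.inr (Or.inl h1)
          · exact Or.inl h1
          · exact Or.inr (Or.inr (Or.inl h1))
          · exact Or.inr (Or.inr (Or.inr h1))
        rcases hall x' hxK' with h1 | h1 | h1 | h1
        · exact absurd h1 k1
        · exact absurd h1 k2
        · exact Or.inl h1
        · exact Or.inr h1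
      have xa' : a' ∉ X := by
        intro h1
        rcases hheavy (tn h1) hax haK with h2 | h2
        · exact pa' h2.symm
        · exact qa' h2.symm
      have xb' : b' ∉ X := by
        intro h1
        rcases hheavy (tn h1) hbx hbK with h2 | h2
        · exact pb' h2.symm
        · exact qb' h2.symm
      have hone : p ∉ X ∨ q ∉ X := by
        by_contra h1
        push Not at h1
        obtain ⟨hpX, hqX⟩ := h1
        have fp := h.tf (tn hpX)
        obtain ⟨hs, ht⟩ := hin2 (tn hpX) px hp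
        have k1 : y p = a' ∨ y p = b' := by
          rcases hall _ hs with h2 | h2 | h2 | h2
          · exact Or.inl h2
          · exact Or.inr h2
          · exact absurd h2.symm fp.nxa
          · exact absurd (h2.symm ▸ hqX) fp.aX
        have k2 : z p = a' ∨ z p = b' := by
          rcases hall _ ht with h2 | h2 | h2 | h2
          · exact Or.inl h2
          · exact Or.inr h2
          · exact absurd h2.symm fp.nxb
          · exact absurd (h2.symm ▸ hqX) fp.bX
        have k3 := fp.ab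
        rcases k1 with k1 | k1 <;> rcases k2 with k2 | k2
        · exact fp.nab (k1.trans k2.symm)
        · rw [k1, k2] at k3
          exact hE k3
        · rw [k1, k2] at k3
          exact hE (h.sym _ _ k3)
        · exact fp.nab (k1.trans k2.symm)
      rcases hone with hpX | hqX
      · refine case2_fin h ih t ha' haa hax hab hb' hbb hbx hba hne hqU hpU hpq.symm qa qb pa pb qx px qa' qb' pa' pb'
          e2 e1 e4 e3 (h.sym _ _ e5) xa' xb' hpX ?_
        intro x' s t' ts h1 h2
        have h3 : s ∉ K := by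
          intro h3
          rcases hheavy ts h1 (hin1 ts h1 h3).1 with h4 | h4
          · exact hpX (h4 ▸ ts.hx)
          · exact h2 h4
        exact ⟨fun h4 => h3 (h4 ▸ haK), fun h4 => h3 (h4 ▸ hbK), fun h4 => h3 (h4 ▸ hq), fun h4 => h3 (h4 ▸ hp)⟩
      · refine case2_fin h ih t ha' haa hax hab hb' hbb hbx hba hne hpU hqU hpq pa pb qa qb px qx pa' pb' qa' qb'
          e1 e2 e3 e4 e5 xa' xb' hqX ?_
        intro x' s t' ts h1 h2
        have h3 : s ∉ K := by
          intro h3
          rcases hheavy ts h1 (hin1 ts h1 h3).1 with h4 | h4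
          · exact h2 h4
          · exact hqX (h4 ▸ ts.hx)
        exact ⟨fun h4 => h3 (h4 ▸ haK), fun h4 => h3 (h4 ▸ hbK), fun h4 => h3 (h4 ▸ hp), fun h4 => h3 (h4 ▸ hq)⟩

end

theorem vl_ind (hB : ST_Brooks) (V : Type) : ∀ (n : ℕ) (U : Finset V) (E : V → V → Prop) (X : Finset V) (y z : V → V),
    U.card = n → VL U E X y z → Col3 U E := by
  intro n
  induction n using Nat.strong_induction_on with
  | _ n ih =>
    intro U E X y z hn h
    have ih' : IHn V U.card := by
      intro U' E' X' y' z' h1 h2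
      exact ih U'.card (hn ▸ h1) U' E' X' y' z' rfl h2
    by_cases hX : X = ∅
    · exact hB V U E h.sym h.irr (fun v hv => h.d3 v hv (by
        rw [hX]
        exact Finset.notMem_empty v)) h.k4
    · obtain ⟨x, hx⟩ := Finset.nonempty_iff_ne_empty.mpr hX
      by_cases h0 : ∃ x a b, Tn X y z x a b ∧ ∀ w ∈ U, E a w → w = x ∨ w = b
      · obtain ⟨x, a, b, t, h1⟩ := h0
        exact case_zero h ih' t h1
      · push Not at h0
        by_cases hL : ∃ x a b x₂ a₂ b₂ o, Lp U E X y z x a b x₂ a₂ b₂ o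
        · obtain ⟨x, a, b, x₂, a₂, b₂, o, l⟩ := hL
          by_cases ho : o ∈ X
          · exact case1b h ih' l ho
          · exact case1a h ih' l ho
        · push Not at hL
          obtain ⟨a', ha', haa, hax, hab⟩ := h0 x (y x) (z x) (tn hx)
          obtain ⟨b', hb', hbb, hbx, hba⟩ := h0 x (z x) (y x) (tn hx).symm
          exact g2case2 h ih' (tn hx) hL ha' haa hax hab hb' hbb hbx hba

theorem st_VL (hB : ST_Brooks) : ST_VL := by
  intro V U E X y z h1 h2 h3 h4 h5 h6 h7 h8 h9
  exact vl_ind hB V U.card U E X y z rfl ⟨h1, h2, h3, h4, h5, h6, h7, h8, h9⟩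

end Pool.Agent.Helper91.Inj
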