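import Pool.Agent.Helper65.Inj.JDefs

/-!
JW: the walk gives no bad tokens; existence of the final `J`.
-/

set_option autoImplicit false

namespace Pool.Agent.Helper91.Inj

open Classical Pool.Agent.Helper65.Inj Pool.Agent.Helper65.Inj.Cub

/-- the walk has a state of length `n` -/
def Wn {A B : Type} [Fintype A] [Fintype B] (H : Cub A B) (n : ℕ) : Prop :=
  ∃ (J : Finset A) (w e1 e2 y : ℕ → A) (T D1 D2 : ℕ → B) (x : A) (b c : B) (j k : A),
    H.WS J n w e1 e2 y T D1 D2 x b c j k ∧ H.Bad J (T n)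

theorem wn_zero (hOR : ST_OR) {A B : Type} [Fintype A] [Fintype B] {H : Cub A B} {J : Finset A} {T : B}
    (hJ : H.FOpt J) (hB : H.Bad J T) : Wn H 0 := by
  have hO := hJ.1
  have hB' := hB
  obtain ⟨hU, u, v, huT, hvT, huv, hu, hv, T1, b, c, j, k, hx, hlp⟩ := hB'
  obtain ⟨⟨T2, b', c', j', k', hw⟩, -⟩ := hv
  have e1 : T1 = T := F1 hO hx.vT huT hx.hT hU
  have e2 : T2 = T := F1 hO hw.vT hvT hw.hT hU
  subst e1
  subst e2
  refine ⟨J, fun _ => v, fun _ => j', fun _ => k', fun _ => v, fun _ => T2, fun _ => b', fun _ => c', u, b, c, j, k,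
    ?_, hB⟩
  exact {
    hJ := hJ
    wT := fun _ _ => hvT
    wD1 := fun _ _ => hw.vb
    wD2 := fun _ _ => hw.vc
    TD1 := fun _ _ => hw.Tb
    TD2 := fun _ _ => hw.Tc
    D12 := fun _ _ => hw.bc
    wJ := fun _ _ => hw.nJ
    hD1 := fun _ _ => hw.hj
    hD2 := fun _ _ => hw.hk
    lf1 := fun _ _ => by
      obtain ⟨D, F, p, h1⟩ := hw.lf hO
      exact ⟨b', D, F, p, h1⟩
    lf2 := fun _ _ => by
      obtain ⟨D, F, p, h1⟩ := hw.symm.lf hO
      exact ⟨c', D, F, p, h1⟩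
    ne := fun _ _ => hw.ne hO
    rc := fun _ _ => hOR A B H J j' k' hO hw.hj.2.1 fun s hs => hw.opp hO hs
    hTn := hU
    hT := fun i hi => absurd hi (Nat.not_lt_zero i)
    dis := fun i hi i' hi' hne => absurd ((Nat.le_zero.mp hi).trans (Nat.le_zero.mp hi').symm) hne
    yrc := fun i hi => absurd hi (Nat.not_lt_zero i)
    ytwo := fun i hi => absurd hi (Nat.not_lt_zero i)
    hx := hx
    xw := huv
    hv := hu
    lgo := Or.inl hlp
    TD := fun i hi => absurd hi (Nat.not_lt_zero i) }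

theorem wn_succ (hL : ST_WSL) (hS : ST_WSS) {A B : Type} [Fintype A] [Fintype B] {H : Cub A B} {n : ℕ}
    (h : Wn H n) : Wn H (n + 1) := by
  obtain ⟨J, w, e1, e2, y, T, D1, D2, x, b, c, j, k, hW, hB⟩ := h
  by_cases hlp : H.LP j k
  · exact hL A B H J n w e1 e2 y T D1 D2 x b c j k hW hB hlp
  · exact hS A B H J n w e1 e2 y T D1 D2 x b c j k hW hB hlp

theorem wn_card {A B : Type} [Fintype A] [Fintype B] {H : Cub A B} {n : ℕ} (h : Wn H n) : n < Fintype.card A := by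
  obtain ⟨J, w, e1, e2, y, T, D1, D2, x, b, c, j, k, hW, -⟩ := h
  have h1 : Function.Injective fun i : Fin (n + 1) => e1 i := by
    intro i i' hii
    by_contra hne
    have h2 := hW.dis i (Nat.lt_succ_iff.mp i.2) i' (Nat.lt_succ_iff.mp i'.2) fun h3 => hne (Fin.ext h3)
    apply h2
    have h3 : e1 i = e1 i' := hii
    rw [h3]
    exact Relation.ReflTransGen.refl
  have h2 := Fintype.card_le_of_injective _ h1
  rw [Fintype.card_fin] at h2
  omega

theorem st_Walk (hOR : ST_OR) (hL : ST_WSL) (hS : ST_WSS) : ST_Walk := by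
  intro A B _ _ H J hJ
  by_contra hne
  obtain ⟨T, hT⟩ : ∃ T, H.Bad J T := by
    by_contra hc
    push Not at hc
    apply hne
    show (Finset.univ.filter fun b => H.Bad J b).card = 0
    rw [Finset.card_eq_zero, Finset.filter_eq_empty_iff]
    intro b _
    exact hc b
  have h1 : ∀ n, Wn H n := by
    intro n
    induction n with
    | zero => exact wn_zero hOR hJ hT
    | succ n ih => exact wn_succ hL hS ih
  exact lt_irrefl _ (wn_card (h1 (Fintype.card A)))

theorem st_GEx (hW : ST_Walk) : ST_GEx := by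
  intro A B _ _ H
  obtain ⟨J0, hJ0⟩ := exists_opt H
  obtain ⟨J1, hJ1, hm⟩ := Finset.exists_min_image (Finset.univ.filter fun J => H.Opt J) (fun J => H.nB J)
    ⟨J0, Finset.mem_filter.mpr ⟨Finset.mem_univ _, hJ0⟩⟩
  have hF : H.FOpt J1 := ⟨(Finset.mem_filter.mp hJ1).2, fun J' hJ' =>
    hm J' (Finset.mem_filter.mpr ⟨Finset.mem_univ _, hJ'⟩)⟩
  have h0 := hW A B H J1 hF
  obtain ⟨J2, hJ2, hm2⟩ := Finset.exists_min_image (Finset.univ.filter fun J => H.Opt J ∧ H.nB J = 0)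
    (fun J => toLex (H.nH J, H.nN J)) ⟨J1, Finset.mem_filter.mpr ⟨Finset.mem_univ _, hF.1, h0⟩⟩
  have h2 := (Finset.mem_filter.mp hJ2).2
  refine ⟨J2, h2.1, h2.2, fun J' hJ' hB' => ?_⟩
  have h3 := hm2 J' (Finset.mem_filter.mpr ⟨Finset.mem_univ _, hJ', hB'⟩)
  rw [Prod.Lex.toLex_le_toLex] at h3
  exact h3

end Pool.Agent.Helper91.Inj
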