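import Pool.Agent.Helper65.Inj.JDefs

/-!
JWb: the exchanges W3, W6, W7.
-/

set_option autoImplicit false

namespace Pool.Agent.Helper91.Inj

open Classical Pool.Agent.Helper65.Inj Pool.Agent.Helper65.Inj.Cub

theorem P_uniq {A B : Type} {H : Cub A B} {J : Finset A} {b : B} {u v : A} (h : H.P J b u) (h' : H.P J b v) : u = v :=
  h'.2.2 u h.1 h.2.1

theorem P_ne {A B : Type} {H : Cub A B} {J : Finset A} {b c : B} {u v : A} (h : H.P J b u) (h' : H.P J c v)
    (hne : u ≠ v) : b ≠ c := by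
  rintro rfl
  exact hne (P_uniq h h')

theorem st_W7 : ST_W7 := by
  intro A B _ _ H J w v q e1 e2 p1 p2 T D1 D2 G1 G2 F1 F2 Fq hO hw l1 l2 hlp hv vF1 vF2 vFq hq hntq hq1 hq2
  obtain ⟨⟨s, hs⟩, hI⟩ := hO.1
  have he : e1 ≠ e2 := hw.ne hO
  have hnJ := hw.nJ
  have wall := @XD.all _ _ _ _ _ _ _ _ _ _ _ _ hw
  have a1 := @Lf.all _ _ _ _ _ _ _ _ _ _ _ l1
  have a2 := @Lf.all _ _ _ _ _ _ _ _ _ _ _ l2
  have n1 : F1 ≠ F2 := P_ne l1.hF l2.hF he
  have n2 : F1 ≠ Fq := P_ne l1.hF hq hq1.symm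
  have n3 : F2 ≠ Fq := P_ne l2.hF hq hq2.symm
  have vall : ∀ r, v ∈ H.pt r → r = F1 ∨ r = F2 ∨ r = Fq := fun r hr => bl_cases vF1 vF2 vFq n1 n2 n3 hr
  have hnt1 : H.nt J e1 := l1.hD.nt hI
  have hnt2 : H.nt J e2 := l2.hD.nt hI
  have hp1 : p1 ≠ e2 := fun h => hlp G1 ⟨l1.hD.2.1, h ▸ l1.hD.2.2.1⟩
  have hp2 : p2 ≠ e1 := fun h => hlp G2 ⟨h ▸ l2.hD.2.2.1, l2.hD.2.1⟩
  have hp1' : p1 ≠ e1 := l1.hD.1.symm
  have hp2' : p2 ≠ e2 := l2.hD.1.symm
  obtain ⟨hwT, hwb, hwc, hbc, hUT, hPj, hPk⟩ := hw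
  obtain ⟨-, hF1, hD1, hbF1⟩ := l1
  obtain ⟨-, hF2, hD2, hbF2⟩ := l2
  have hEx : Ex H J {w, v} {e1, e2} ∅ {T} (fun a => if a = v then !(s q) else s a) := by
    refine ⟨?_, ?_, ?_, ?_, ?_, ?_⟩
    · intro u hu
      simp at hu
      rcases hu with rfl | rfl
      · exact hnJ
      · exact hv
    · intro u hu
      simp at hu
      rcases hu with rfl | rfl
      · exact hPj.2.1
      · exact hPk.2.1
    · unfold U P at *; grind
    · refine hc_s hs ?_ ?_ ?_
      · intro u hu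
        simp at hu
        rcases hu with rfl | rfl
        · exact hnt1
        · exact hnt2
      · intro u hu
        simp at hu
        rcases hu with rfl | rfl
        · exact hnJ
        · exact hv
      · intro u hu _
        have : u ≠ v := fun h => hv (h ▸ hu)
        simp [this]
    · unfold Q P at *; grind
    · unfold U at *; grind
  refine hEx.contra hO ?_
  have h1 : ({w, v} : Finset A).card ≤ 2 := Finset.card_le_two
  have h2 : ({e1, e2} : Finset A).card = 2 := Finset.card_pair he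
  rw [h2, Finset.card_singleton, Finset.card_empty]
  omega

/-- the only neighbour of an end -/
theorem lf_nb {A B : Type} [Fintype A] [Fintype B] {H : Cub A B} {J : Finset A} {j a p : A} {b D F G : B} (h : Lf H J j b D F p)
    (hG : H.Q J G a j) : a = p ∧ G = D := by
  rcases h.all hG.2.2.1 with h1 | h1 | h1
  · exact absurd (h.hb.2.2 a (h1 ▸ hG.2.1) hG.2.2.2.1) hG.1
  · rcases h.hD.2.2.2.2.2 a (h1 ▸ hG.2.1) hG.2.2.2.1 with h2 | h2
    · exact absurd h2 hG.1
    · exact ⟨h2, h1⟩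
  · exact absurd (h.hF.2.2 a (h1 ▸ hG.2.1) hG.2.2.2.1) hG.1

theorem card_le3 {A : Type} (a b c : A) : ({a, b, c} : Finset A).card ≤ 3 := Finset.card_le_three

theorem card_eq3 {A : Type} {a b c : A} (h1 : a ≠ b) (h2 : a ≠ c) (h3 : b ≠ c) : ({a, b, c} : Finset A).card = 3 :=
  Finset.card_eq_three.mpr ⟨a, b, c, h1, h2, h3, rfl⟩

theorem st_W6 : ST_W6 := by
  intro A B _ _ H J w x v v' j k e1 e2 p1 p2 T b c D Fj Fk D1 D2 G1 G2 F1 F2 hO hw hx hxw lj lk l1 l2 hlp hje1 hje2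
    hke1 hke2 hv hv' vFj vFk vD1 vF2 vF1 vD2
  obtain ⟨⟨s, hs⟩, hI⟩ := hO.1
  have he : e1 ≠ e2 := hw.ne hO
  have hjk : j ≠ k := hx.ne hO
  have hnJ := hx.nJ
  have xall := @XD.all _ _ _ _ _ _ _ _ _ _ _ _ hx
  have aj := @Lf.all _ _ _ _ _ _ _ _ _ _ _ lj
  have a1 := @Lf.all _ _ _ _ _ _ _ _ _ _ _ l1
  have a2 := @Lf.all _ _ _ _ _ _ _ _ _ _ _ l2
  have vall : ∀ r, v ∈ H.pt r → r = Fj ∨ r = D1 ∨ r = F2 := fun r hr => bl_cases vFj vD1 vF2
    (P_ne lj.hF l1.hb hje1) (P_ne lj.hF l2.hF hje2) (P_ne l1.hb l2.hF he) hr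
  have vall' : ∀ r, v' ∈ H.pt r → r = Fk ∨ r = F1 ∨ r = D2 := fun r hr => bl_cases vFk vF1 vD2
    (P_ne lk.hF l1.hF hke1) (P_ne lk.hF l2.hb hke2) (P_ne l1.hF l2.hb he) hr
  have hnt1 : H.nt J e1 := l1.hD.nt hI
  have hnt2 : H.nt J e2 := l2.hD.nt hI
  have hntj : H.nt J j := lj.hD.nt hI
  have hntk : H.nt J k := lk.hD.nt hI
  have hp1 : p1 ≠ e2 := fun h => hlp G1 ⟨l1.hD.2.1, h ▸ l1.hD.2.2.1⟩
  have hp2 : p2 ≠ e1 := fun h => hlp G2 ⟨h ▸ l2.hD.2.2.1, l2.hD.2.1⟩
  have hp1' : p1 ≠ e1 := l1.hD.1.symm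
  have hp2' : p2 ≠ e2 := l2.hD.1.symm
  have hxFj : x ∉ H.pt Fj := hx.notF hO lj
  have hxFk : x ∉ H.pt Fk := hx.symm.notF hO lk
  have hp1j : p1 ≠ j := by
    rintro rfl
    exact hke1 (lf_nb lj l1.hD).1.symm
  have hp2j : p2 ≠ j := by
    rintro rfl
    exact hke2 (lf_nb lj l2.hD).1.symm
  obtain ⟨hxT, hxb, hxc, hbc, hUT, hPj, hPk⟩ := hx
  obtain ⟨-, hFj, hDj, hbFj⟩ := lj
  obtain ⟨-, hFk, hDk, hbFk⟩ := lk
  obtain ⟨hb1, hF1, hD1, hbF1⟩ := l1
  obtain ⟨hb2, hF2, hD2, hbF2⟩ := l2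
  have hEx : Ex H J {x, v, v'} {e1, e2, j} ∅ {T} (fun a => if a = x ∨ a = v' then !(s k) else s a) := by
    refine ⟨?_, ?_, ?_, ?_, ?_, ?_⟩
    · intro u hu
      simp at hu
      rcases hu with rfl | rfl | rfl
      · exact hnJ
      · exact hv
      · exact hv'
    · intro u hu
      simp at hu
      rcases hu with rfl | rfl | rfl
      · exact hb1.2.1
      · exact hb2.2.1
      · exact hPj.2.1
    · intro a ha g hg u hu hu' hne
      simp only [Finset.mem_insert, Finset.mem_singleton] at ha hu' ⊢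
      unfold U P Q at *
      rcases ha with rfl | rfl | rfl
      · rcases xall hg with rfl | rfl | rfl
        · grind
        · grind
        · grind
      · rcases vall g hg with rfl | rfl | rfl
        · grind
        · grind
        · grind
      · rcases vall' g hg with rfl | rfl | rfl
        · grind
        · grind
        · grind
    · refine hc_s hs ?_ ?_ ?_
      · intro u hu
        simp at hu
        rcases hu with rfl | rfl | rfl
        · exact hnt1
        · exact hnt2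
        · exact hntj
      · intro u hu
        simp at hu
        rcases hu with rfl | rfl | rfl
        · exact hnJ
        · exact hv
        · exact hv'
      · intro u hu _
        have h1 : u ≠ x := fun h => hnJ (h ▸ hu)
        have h2 : u ≠ v' := fun h => hv' (h ▸ hu)
        simp [h1, h2]
    · unfold Q P at *; grind
    · unfold U at *; grind
  refine hEx.contra hO ?_
  have h1 : ({x, v, v'} : Finset A).card ≤ 3 := card_le3 _ _ _
  have h2 : ({e1, e2, j} : Finset A).card = 3 := card_eq3 he hje1.symm hje2.symm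
  rw [h2, Finset.card_singleton, Finset.card_empty]
  omega

theorem adj_symm' {A B : Type} {H : Cub A B} {J : Finset A} {u v : A} (h : H.Adj J u v) : H.Adj J v u := by
  obtain ⟨b, hb⟩ := h
  exact ⟨b, hb.symm⟩

theorem rc_symm {A B : Type} {H : Cub A B} {J : Finset A} {u v : A} (h : H.Rc J u v) : H.Rc J v u := by
  induction h with
  | refl => exact Relation.ReflTransGen.refl
  | tail _ h2 ih => exact Relation.ReflTransGen.head (adj_symm' h2) ih

theorem rc_q {A B : Type} {H : Cub A B} {J : Finset A} {b : B} {u v : A} (h : H.Q J b u v) : H.Rc J u v :=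
  Relation.ReflTransGen.single ⟨b, h⟩

theorem st_W3 : ST_W3 := by
  intro A B _ _ H J w x y e1 e2 p1 p2 p q y2 T T1 D1 D2 G1 G2 F1 F2 E E' T' Dy hO hw wT1 wD1 wD2 hT1 hp pE pE' pT'
    hE' hT' ly hy2 hTE' hTE r1 r2 r3 r4 he hlp l1 l2 hx
  obtain ⟨⟨s, hs⟩, hI⟩ := hO.1
  obtain ⟨Y1, Y2, z1, z2, hY, hq1, hq2⟩ := hy2
  have hnJ := hx.nJ
  have hyJ := hT1.2.1
  have xall := @XD.all _ _ _ _ _ _ _ _ _ _ _ _ hx
  have ay := @Lf.all _ _ _ _ _ _ _ _ _ _ _ ly
  have a1 := @Lf.all _ _ _ _ _ _ _ _ _ _ _ l1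
  have a2 := @Lf.all _ _ _ _ _ _ _ _ _ _ _ l2
  -- different points
  have ne1 : y ≠ e1 := fun h => r1 (h ▸ Relation.ReflTransGen.refl)
  have r5 : ¬ H.Rc J y e2 := fun h => r1 (h.trans (rc_symm r4))
  have r6 : ¬ H.Rc J y2 e2 := fun h => r2 (h.trans (rc_symm r4))
  have ne2 : y ≠ e2 := fun h => r5 (h ▸ Relation.ReflTransGen.refl)
  have ne3 : y2 ≠ e1 := fun h => r2 (h ▸ Relation.ReflTransGen.refl)
  have ne4 : y2 ≠ e2 := fun h => r6 (h ▸ Relation.ReflTransGen.refl)
  have ne5 : y2 ≠ y := fun h => r3 (h ▸ Relation.ReflTransGen.refl)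
  have hyq : H.Rc J y q := rc_q ly.hD
  have ne6 : q ≠ e1 := fun h => r1 (h ▸ hyq)
  have ne7 : q ≠ e2 := fun h => r5 (h ▸ hyq)
  have ne8 : q ≠ y2 := fun h => r3 (rc_symm (h ▸ hyq))
  have ne9 : y ≠ q := ly.hD.1
  -- the neighbours of y2
  have nb : ∀ {G : B} {a : A}, H.Q J G y2 a → a ≠ e1 ∧ a ≠ e2 ∧ a ≠ y ∧ a ≠ y2 := fun {G a} h =>
    ⟨fun h1 => r2 (h1 ▸ rc_q h), fun h1 => r6 (h1 ▸ rc_q h), fun h1 => r3 (h1 ▸ rc_q h), h.1.symm⟩
  obtain ⟨b11, b12, b13, b14⟩ := nb hq1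
  obtain ⟨b21, b22, b23, b24⟩ := nb hq2
  -- the neighbours of e1, e2
  have c1 : p1 ≠ e2 := fun h => hlp G1 ⟨l1.hD.2.1, h ▸ l1.hD.2.2.1⟩
  have c2 : p2 ≠ e1 := fun h => hlp G2 ⟨h ▸ l2.hD.2.2.1, l2.hD.2.1⟩
  have c3 : p1 ≠ e1 := l1.hD.1.symm
  have c4 : p2 ≠ e2 := l2.hD.1.symm
  have c5 : p1 ≠ y := fun h => r1 (rc_symm (h ▸ rc_q l1.hD))
  have c6 : p2 ≠ y := fun h => r5 (rc_symm (h ▸ rc_q l2.hD))
  have c7 : p1 ≠ y2 := fun h => r2 (rc_symm (h ▸ rc_q l1.hD))
  have c8 : p2 ≠ y2 := fun h => r6 (rc_symm (h ▸ rc_q l2.hD))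
  -- blocks
  have wall : ∀ r, w ∈ H.pt r → r = T1 ∨ r = D1 ∨ r = D2 := fun r hr => bl_cases wT1 wD1 wD2
    (P_ne hT1 l1.hb ne1) (P_ne hT1 l2.hb ne2) (P_ne l1.hb l2.hb he) hr
  have pall : ∀ r, p ∈ H.pt r → r = E ∨ r = E' ∨ r = T' := fun r hr => bl_cases pE pE' pT'
    (P_ne ly.hF hE' ne9) hTE.symm hTE'.symm hr
  have y2all : ∀ r, y2 ∈ H.pt r → r = T' ∨ r = Y1 ∨ r = Y2 := by
    intro r hr
    refine bl_cases hT'.1 hq1.2.1 hq2.2.1 ?_ ?_ hY hr
    · rintro rfl
      exact b14 (hT'.2.2 _ hq1.2.2.1 hq1.2.2.2.2.1)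
    · rintro rfl
      exact b24 (hT'.2.2 _ hq2.2.2.1 hq2.2.2.2.2.1)
  have hnt1 : H.nt J e1 := l1.hD.nt hI
  have hnt2 : H.nt J e2 := l2.hD.nt hI
  have hnty : H.nt J y := ly.hD.nt hI
  have hntq : H.nt J q := ly.hD.symm.nt hI
  have hnty2 : H.nt J y2 := hq1.nt hI
  obtain ⟨hxT, hxb, hxc, hbc, hUT, hPj, hPk⟩ := hx
  obtain ⟨-, hEy, hDy, hTE1⟩ := ly
  obtain ⟨hb1, hF1, hD1, hbF1⟩ := l1
  obtain ⟨hb2, hF2, hD2, hbF2⟩ := l2
  -- the new points are different
  have hwx : w ≠ x := by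
    rintro rfl
    rcases xall wT1 with h | h | h
    · exact hUT.not_P (h ▸ hT1)
    · exact ne1 (P_uniq hT1 (h ▸ hPj))
    · exact ne2 (P_uniq hT1 (h ▸ hPk))
  have hwp : w ≠ p := by
    rintro rfl
    rcases wall E' pE' with h | h | h
    · exact ne9 (P_uniq hT1 (h ▸ hE'))
    · exact ne6 (P_uniq hE' (h ▸ hPj))
    · exact ne7 (P_uniq hE' (h ▸ hb2))
  have hxp : x ≠ p := by
    rintro rfl
    rcases xall pE' with h | h | h
    · exact hUT.not_P (h ▸ hE')
    · exact ne6 (P_uniq hE' (h ▸ hPj))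
    · exact ne7 (P_uniq hE' (h ▸ hPk))
  have hpD1 : p ∉ H.pt D1 := by
    intro h1
    rcases pall D1 h1 with h | h | h
    · exact ne1 (P_uniq hEy (h ▸ hb1))
    · exact ne6 (P_uniq hE' (h ▸ hb1))
    · exact ne3 (P_uniq hT' (h ▸ hb1))
  have hxE' : x ∉ H.pt E' := by
    intro h1
    rcases xall h1 with h | h | h
    · exact hUT.not_P (h ▸ hE')
    · exact ne6 (P_uniq hE' (h ▸ hPj))
    · exact ne7 (P_uniq hE' (h ▸ hPk))
  have hwE' : w ∉ H.pt E' := by
    intro h1
    rcases wall E' h1 with h | h | h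
    · exact ne9 (P_uniq hT1 (h ▸ hE'))
    · exact ne6 (P_uniq hE' (h ▸ hPj))
    · exact ne7 (P_uniq hE' (h ▸ hb2))
  have hEx : Ex H J {x, w, p} {e1, e2, y, y2} {F1} {T}
      (fun a => if a = x then true else if a = w then false else if a = p then !(s q) else s a) := by
    refine ⟨?_, ?_, ?_, ?_, ?_, ?_⟩
    · intro u hu
      simp at hu
      rcases hu with rfl | rfl | rfl
      · exact hnJ
      · exact hw
      · exact hp
    · intro u hu
      simp at hu
      rcases hu with rfl | rfl | rfl | rfl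
      · exact hb1.2.1
      · exact hb2.2.1
      · exact hyJ
      · exact hT'.2.1
    · intro a ha g hg u hu hu' hne
      simp only [Finset.mem_insert, Finset.mem_singleton] at ha hu' ⊢
      unfold U P Q at *
      rcases ha with rfl | rfl | rfl
      · rcases xall hg with rfl | rfl | rfl
        · grind
        · have huw : u = w := by grind
          subst huw
          refine ⟨by grind, by simp [hwx], fun h => absurd h hw⟩
        · grind
      · rcases wall g hg with rfl | rfl | rfl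
        · grind
        · have hux : u = x := by grind
          subst hux
          refine ⟨by grind, by simp [hwx], fun h => absurd h hnJ⟩
        · grind
      · rcases pall g hg with rfl | rfl | rfl
        · grind
        · have huq : u = q := by grind
          subst huq
          have h1 : u ≠ x := fun h => hnJ (h ▸ hE'.2.1)
          have h2 : u ≠ w := fun h => hw (h ▸ hE'.2.1)
          have h3 : u ≠ a := fun h => hp (h ▸ hE'.2.1)
          refine ⟨by grind, by simp [h1, h2, h3, hxp.symm, hwp.symm], fun h => hntq⟩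
        · grind
    · refine hc_s hs ?_ ?_ ?_
      · intro u hu
        simp at hu
        rcases hu with rfl | rfl | rfl | rfl
        · exact hnt1
        · exact hnt2
        · exact hnty
        · exact hnty2
      · intro u hu
        simp at hu
        rcases hu with rfl | rfl | rfl
        · exact hnJ
        · exact hw
        · exact hp
      · intro u hu _
        have h1 : u ≠ x := fun h => hnJ (h ▸ hu)
        have h2 : u ≠ w := fun h => hw (h ▸ hu)
        have h3 : u ≠ p := fun h => hp (h ▸ hu)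
        simp [h1, h2, h3]
    · intro a ha g hg
      simp only [Finset.mem_insert, Finset.mem_singleton] at ha ⊢
      unfold U P Q at *
      rcases ha with rfl | rfl | rfl | rfl
      · rcases a1 hg with rfl | rfl | rfl
        · grind
        · grind
        · grind
      · rcases a2 hg with rfl | rfl | rfl
        · grind
        · grind
        · grind
      · rcases ay hg with rfl | rfl | rfl
        · grind
        · grind
        · grind
      · rcases y2all g hg with rfl | rfl | rfl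
        · grind
        · grind
        · grind
    · unfold U at *; grind
  refine hEx.contra hO ?_
  have h1 : ({x, w, p} : Finset A).card ≤ 3 := card_le3 _ _ _
  have h2 : ({e1, e2, y, y2} : Finset A).card = 4 := by
    rw [Finset.card_insert_of_notMem, card_eq3 ne2.symm ne4.symm ne5.symm]
    simp [he, ne1.symm, ne3.symm]
  rw [h2, Finset.card_singleton, Finset.card_singleton]
  omega

end Pool.Agent.Helper91.Inj
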