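import Pool.Agent.Helper65.Inj.Defs

/-!
R4: four pairwise adjacent points can be removed.
-/

set_option autoImplicit false

namespace Pool.Agent.Helper91.Inj

open Classical Pool.Agent.Helper65.Inj

variable {A B : Type} {S : RS A B}

theorem mem_pt {v : A} {b : B} : v ∈ S.pt b ↔ v ∈ S.R ∧ b ∈ S.bl v := by
  unfold RS.pt
  rw [Finset.mem_filter]

theorem adj_symm {u v : A} (h : S.adj u v) : S.adj v u := by
  obtain ⟨h1, b, h2, h3, h4⟩ := h
  exact ⟨h1.symm, b, h3, h2, fun h5 => h4 ⟨h5.2, h5.1⟩⟩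

theorem card2 (hC : S.Cls) {b : B} (hb : ¬ S.Tok b) : (S.pt b).card ≤ 2 := by
  have h1 := hC.pt3 b
  have h2 : (S.pt b).card ≠ 3 := hb
  omega

theorem pair (hC : S.Cls) {b : B} (hb : ¬ S.Tok b) {u v : A} (hu : u ∈ S.pt b) (hv : v ∈ S.pt b) (huv : u ≠ v) :
    S.pt b = {u, v} := by
  symm
  apply Finset.eq_of_subset_of_card_le
  · intro w hw
    rw [Finset.mem_insert, Finset.mem_singleton] at hw
    rcases hw with rfl | rfl
    · exact hu
    · exact hv
  · rw [Finset.card_pair huv]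
    exact card2 hC hb

theorem adj_nt {b : B} (hb : ¬ S.Tok b) {u v : A} (hu : u ∈ S.pt b) (hv : v ∈ S.pt b) (huv : u ≠ v) :
    S.adj u v := ⟨huv, b, hu, hv, fun h => hb h.1.2⟩

/-- a point of degree at most three with three neighbours in `O` has all its neighbours in `O` -/
theorem nb_in {O : Finset A} (h4 : O.card = 4) (hR : O ⊆ S.R) (ha : ∀ u ∈ O, ∀ v ∈ O, u ≠ v → S.adj u v) {u : A}
    (hu : u ∈ O) (hd : S.deg u ≤ 3) {w : A} (hw : w ∈ S.R) (h : S.adj u w) : w ∈ O := by
  have h1 : O.erase u ⊆ S.R.filter fun w => S.adj u w := by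
    intro v hv
    rw [Finset.mem_erase] at hv
    rw [Finset.mem_filter]
    exact ⟨hR hv.2, ha u hu v hv.2 (Ne.symm hv.1)⟩
  have h2 : (O.erase u).card = 3 := by rw [Finset.card_erase_of_mem hu, h4]
  have h3 : O.erase u = S.R.filter fun w => S.adj u w := by
    apply Finset.eq_of_subset_of_card_le h1
    rw [h2]
    exact hd
  have h5 : w ∈ O.erase u := by
    rw [h3, Finset.mem_filter]
    exact ⟨hw, h⟩
  exact Finset.mem_of_mem_erase h5

/-- a point of no token has degree at most three -/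
theorem deg_notok (hC : S.Cls) {u : A} (hu : u ∈ S.R) (h : ∀ t, S.Tok t → u ∉ S.pt t) : S.deg u ≤ 3 := by
  by_contra hd
  obtain ⟨b, h1, h2, -, -⟩ := hC.deg3 u hu (not_le.mp hd)
  exact h b h2 h1

/-- a point of a token with a dropped point has degree at most three -/
theorem deg_drop (hC : S.Cls) {t : B} (ht : S.Tok t) {u w : A} (hu : u ∈ S.pt t) (hw : w ∈ S.pt t) (hD : w ∈ S.D) :
    S.deg u ≤ 3 := by
  by_contra hd
  obtain ⟨b, h1, h2, h3, -⟩ := hC.deg3 u (mem_pt.mp hu).1 (not_le.mp hd)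
  have h4 := hC.tokd u t b hu h1 ht h2
  rw [h4] at hw
  exact h3 w hw hD

/-- at most one point of a token has degree four -/
theorem deg_oth (hC : S.Cls) {t : B} (ht : S.Tok t) {u w : A} (hu : u ∈ S.pt t) (hd : 3 < S.deg u) (hw : w ∈ S.pt t)
    (hne : w ≠ u) : S.deg w ≤ 3 := by
  obtain ⟨b, h1, h2, -, h3⟩ := hC.deg3 u (mem_pt.mp hu).1 hd
  have h4 := hC.tokd u t b hu h1 ht h2
  rw [h4] at hw
  exact h3 w hw hne

/-- counting the blocks of a point: different neighbours through blocks which are no tokens -/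
theorem count (hC : S.Cls) {u : A} (hu : u ∈ S.R) (N : Finset A) (hN : u ∉ N) (E : Finset B) (hE : E ⊆ S.bl u)
    (φ : A → B) (hφ : ∀ v ∈ N, ¬ S.Tok (φ v) ∧ u ∈ S.pt (φ v) ∧ v ∈ S.pt (φ v) ∧ φ v ∉ E) :
    N.card + E.card ≤ 3 ∧ (N.card + E.card = 3 → ∀ b ∈ S.bl u, b ∉ E → ∃ v ∈ N, φ v = b) := by
  have hinj : ∀ v ∈ N, ∀ v' ∈ N, φ v = φ v' → v = v' := by
    intro v hv v' hv' h
    by_contra hne
    obtain ⟨h1, h2, h3, -⟩ := hφ v hv
    obtain ⟨-, -, h5, -⟩ := hφ v' hv'
    have h6 := pair hC h1 h2 h3 fun h7 => hN (h7 ▸ hv)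
    rw [← h, h6, Finset.mem_insert, Finset.mem_singleton] at h5
    rcases h5 with h5 | h5
    · exact hN (h5 ▸ hv')
    · exact hne h5.symm
  have h1 : (N.image φ).card = N.card := Finset.card_image_of_injOn fun v hv v' hv' h => hinj v hv v' hv' h
  have h2 : N.image φ ⊆ S.bl u \ E := by
    intro b hb
    obtain ⟨v, hv, rfl⟩ := Finset.mem_image.mp hb
    obtain ⟨-, h3, -, h4⟩ := hφ v hv
    exact Finset.mem_sdiff.mpr ⟨(mem_pt.mp h3).2, h4⟩
  have h3 : (S.bl u \ E).card = 3 - E.card := by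
    rw [Finset.card_sdiff_of_subset hE, hC.bl3 u hu]
  have h4 : E.card ≤ 3 := by
    rw [← hC.bl3 u hu]
    exact Finset.card_le_card hE
  have h5 := Finset.card_le_card h2
  refine ⟨by omega, fun h6 b hb hbE => ?_⟩
  have h7 : N.image φ = S.bl u \ E := Finset.eq_of_subset_of_card_le h2 (by omega)
  have h8 : b ∈ N.image φ := by
    rw [h7]
    exact Finset.mem_sdiff.mpr ⟨hb, hbE⟩
  obtain ⟨v, hv, hvb⟩ := Finset.mem_image.mp h8
  exact ⟨v, hv, hvb⟩

/-! ### the structure of `O` -/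

section

variable {O : Finset A}

/-- the set of four pairwise adjacent points -/
structure Qu (S : RS A B) (O : Finset A) : Prop where
  c4 : O.card = 4
  sub : O ⊆ S.R
  ad : ∀ u ∈ O, ∀ v ∈ O, u ≠ v → S.adj u v

theorem Qu.nb (h : Qu S O) {u : A} (hu : u ∈ O) (hd : S.deg u ≤ 3) {w : A} (hw : w ∈ S.R) (h1 : S.adj u w) : w ∈ O :=
  nb_in h.c4 h.sub h.ad hu hd hw h1

/-- blocks of a point of `O` in no token -/
theorem Qu.full (hC : S.Cls) (h : Qu S O) {u : A} (hu : u ∈ O) (hn : ∀ t, S.Tok t → u ∉ S.pt t) :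
    (∀ b ∈ S.bl u, ∃ v ∈ O, v ≠ u ∧ S.pt b = {u, v}) ∧
      ∀ v ∈ O, v ≠ u → ∃ b, S.pt b = {u, v} ∧ ∀ b', u ∈ S.pt b' → v ∈ S.pt b' → b' = b := by
  have h1 : ∀ v ∈ O.erase u, ∃ b, ¬ S.Tok b ∧ u ∈ S.pt b ∧ v ∈ S.pt b ∧ b ∉ (∅ : Finset B) := by
    intro v hv
    rw [Finset.mem_erase] at hv
    obtain ⟨-, b, h2, h3, -⟩ := h.ad u hu v hv.2 (Ne.symm hv.1)
    exact ⟨b, fun h4 => hn b h4 h2, h2, h3, Finset.notMem_empty b⟩
  have hne : Nonempty B := by
    have h2 : ∃ v, v ∈ O.erase u := by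
      apply Finset.card_pos.mp
      rw [Finset.card_erase_of_mem hu, h.c4]
      norm_num
    obtain ⟨v, hv⟩ := h2
    exact ⟨(h1 v hv).choose⟩
  choose! φ hφ using h1
  have h3 := count hC (h.sub hu) (O.erase u) (Finset.notMem_erase u O) ∅ (Finset.empty_subset _) φ hφ
  have h4 : (O.erase u).card + (∅ : Finset B).card = 3 := by
    rw [Finset.card_erase_of_mem hu, h.c4, Finset.card_empty]
  have h5 := h3.2 h4
  have h6 : ∀ v ∈ O.erase u, S.pt (φ v) = {u, v} := fun v hv =>
    pair hC (hφ v hv).1 (hφ v hv).2.1 (hφ v hv).2.2.1 (Ne.symm (Finset.ne_of_mem_erase hv))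
  refine ⟨fun b hb => ?_, fun v hv hvu => ?_⟩
  · obtain ⟨v, hv, hvb⟩ := h5 b hb (Finset.notMem_empty b)
    exact ⟨v, Finset.mem_of_mem_erase hv, Finset.ne_of_mem_erase hv, hvb ▸ h6 v hv⟩
  · have hv' : v ∈ O.erase u := Finset.mem_erase.mpr ⟨hvu, hv⟩
    refine ⟨φ v, h6 v hv', fun b' h7 h8 => ?_⟩
    obtain ⟨v', hv2, hvb⟩ := h5 b' (mem_pt.mp h7).2 (Finset.notMem_empty b')
    rw [← hvb, h6 v' hv2, Finset.mem_insert, Finset.mem_singleton] at h8
    rcases h8 with h8 | h8
    · exact absurd h8 hvu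
    · rw [← hvb, h8]

/-- tokens are inside `O` or disjoint from `O` -/
theorem Qu.tok (hC : S.Cls) (h : Qu S O) {t : B} (ht : S.Tok t) {u : A} (hut : u ∈ S.pt t) (hu : u ∈ O) :
    S.pt t ⊆ O := by
  by_cases hD : ∃ w ∈ S.pt t, w ∈ S.D
  · obtain ⟨w, hw, hwD⟩ := hD
    obtain ⟨w', hw', hne, hwD'⟩ := hC.drop2 t ht w hw hwD
    have hdeg : ∀ v ∈ S.pt t, S.deg v ≤ 3 := fun v hv => deg_drop hC ht hv hw hwD
    obtain ⟨r, hr, hrD⟩ : ∃ r ∈ S.pt t, r ∉ S.D := by
      by_contra hc
      push Not at hc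
      have h1 : ∀ v ∈ O.erase u, ∃ b, ¬ S.Tok b ∧ u ∈ S.pt b ∧ v ∈ S.pt b ∧ b ∉ ({t} : Finset B) := by
        intro v hv
        rw [Finset.mem_erase] at hv
        obtain ⟨-, b, h2, h3, h4⟩ := h.ad u hu v hv.2 (Ne.symm hv.1)
        have hbt : b ≠ t := by
          rintro rfl
          exact h4 ⟨⟨hc u h2, ht⟩, ⟨hc v h3, ht⟩⟩
        refine ⟨b, fun h5 => hbt (hC.tokd u b t h2 hut h5 ht), h2, h3, ?_⟩
        rw [Finset.mem_singleton]
        exact hbt
      have hne : Nonempty B := ⟨t⟩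
      choose! φ hφ using h1
      have h3 := (count hC (h.sub hu) (O.erase u) (Finset.notMem_erase u O) {t} (by
        rw [Finset.singleton_subset_iff]
        exact (mem_pt.mp hut).2) φ hφ).1
      rw [Finset.card_erase_of_mem hu, h.c4, Finset.card_singleton] at h3
      omega
    have hrw : r ≠ w := fun h1 => hrD (h1 ▸ hwD)
    have hrw' : r ≠ w' := fun h1 => hrD (h1 ▸ hwD')
    have hpt : S.pt t = {r, w, w'} := by
      symm
      apply Finset.eq_of_subset_of_card_le
      · intro x hx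
        rw [Finset.mem_insert, Finset.mem_insert, Finset.mem_singleton] at hx
        rcases hx with rfl | rfl | rfl
        · exact hr
        · exact hw
        · exact hw'
      · have h1 : (S.pt t).card = 3 := ht
        rw [h1, Finset.card_eq_three.mpr ⟨r, w, w', hrw, hrw', hne.symm, rfl⟩]
    have a1 : S.adj r w := ⟨hrw, t, hr, hw, fun h1 => hrD h1.1.1⟩
    have a2 : S.adj r w' := ⟨hrw', t, hr, hw', fun h1 => hrD h1.1.1⟩
    have hrO : r ∈ O := by
      rw [hpt, Finset.mem_insert, Finset.mem_insert, Finset.mem_singleton] at hut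
      rcases hut with rfl | rfl | rfl
      · exact hu
      · exact h.nb hu (hdeg _ hw) (mem_pt.mp hr).1 (adj_symm a1)
      · exact h.nb hu (hdeg _ hw') (mem_pt.mp hr).1 (adj_symm a2)
    intro x hx
    rw [hpt, Finset.mem_insert, Finset.mem_insert, Finset.mem_singleton] at hx
    rcases hx with rfl | rfl | rfl
    · exact hrO
    · exact h.nb hrO (hdeg _ hr) (mem_pt.mp hw).1 a1
    · exact h.nb hrO (hdeg _ hr) (mem_pt.mp hw').1 a2
  · push Not at hD
    have ha : ∀ v ∈ S.pt t, ∀ w ∈ S.pt t, v ≠ w → S.adj v w := fun v hv w hw hne =>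
      ⟨hne, t, hv, hw, fun h1 => hD v hv h1.1.1⟩
    have key : ∀ v ∈ S.pt t, v ∈ O → S.deg v ≤ 3 → S.pt t ⊆ O := by
      intro v hv hvO hd w hw
      by_cases hvw : v = w
      · exact hvw ▸ hvO
      · exact h.nb hvO hd (mem_pt.mp hw).1 (ha v hv w hw hvw)
    by_cases hd : S.deg u ≤ 3
    · exact key u hut hu hd
    · have hd' := not_le.mp hd
      by_cases hex : ∃ v ∈ S.pt t, v ≠ u ∧ v ∈ O
      · obtain ⟨v, hv, hvu, hvO⟩ := hex
        exact key v hv hvO (deg_oth hC ht hut hd' hv hvu)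
      · push Not at hex
        exfalso
        have h1 : O.erase u ∪ (S.pt t).erase u ⊆ S.R.filter fun w => S.adj u w := by
          intro v hv
          rw [Finset.mem_filter]
          rcases Finset.mem_union.mp hv with hv | hv
          · rw [Finset.mem_erase] at hv
            exact ⟨h.sub hv.2, h.ad u hu v hv.2 (Ne.symm hv.1)⟩
          · rw [Finset.mem_erase] at hv
            exact ⟨(mem_pt.mp hv.2).1, ha u hut v hv.2 (Ne.symm hv.1)⟩
        have h2 : Disjoint (O.erase u) ((S.pt t).erase u) := by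
          rw [Finset.disjoint_left]
          intro v h3 h4
          rw [Finset.mem_erase] at h3 h4
          exact hex v h4.2 h4.1 h3.2
        have h3 := Finset.card_le_card h1
        rw [Finset.card_union_of_disjoint h2, Finset.card_erase_of_mem hu, Finset.card_erase_of_mem hut, h.c4] at h3
        have h4 : (S.pt t).card = 3 := ht
        have h5 : (S.R.filter fun w => S.adj u w).card ≤ 4 := hC.deg4 u (h.sub hu)
        omega

end

/-! ### glueing -/

theorem pt_rm (O : Finset A) (b : B) : (S.rm O).pt b = S.pt b \ O := by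
  ext v
  rw [mem_pt, Finset.mem_sdiff, mem_pt]
  show v ∈ S.R \ O ∧ b ∈ S.bl v ↔ _
  rw [Finset.mem_sdiff]
  tauto

theorem tok_rm (hC : S.Cls) {O : Finset A} (htok : ∀ t, S.Tok t → ∀ u ∈ S.pt t, u ∈ O → S.pt t ⊆ O) {v : A} {b : B}
    (hv : v ∈ S.pt b) (hvO : v ∉ O) : (S.rm O).Tok b ↔ S.Tok b := by
  constructor
  · intro h
    have h1 : ((S.rm O).pt b).card = 3 := h
    rw [pt_rm] at h1
    have h2 : (S.pt b \ O).card ≤ (S.pt b).card := Finset.card_le_card Finset.sdiff_subset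
    have h3 := hC.pt3 b
    show (S.pt b).card = 3
    omega
  · intro h
    have h1 : S.pt b \ O = S.pt b := by
      apply Finset.sdiff_eq_self_of_disjoint
      rw [Finset.disjoint_left]
      intro w hw hwO
      exact hvO (htok b h w hw hwO hv)
    show ((S.rm O).pt b).card = 3
    rw [pt_rm, h1]
    exact h

theorem glue (hC : S.Cls) {O : Finset A} (htok : ∀ t, S.Tok t → ∀ u ∈ S.pt t, u ∈ O → S.pt t ⊆ O)
    (f' : A → B → Fin 3)
    (f1 : ∀ u v b b', u ≠ v → b ≠ b' → u ∈ (S.rm O).pt b → v ∈ (S.rm O).pt b → v ∈ (S.rm O).pt b' →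
      ¬ (S.rm O).drp u b → ¬ (S.rm O).drp v b' → f' u b ≠ f' v b')
    (f2 : ∀ v c, (S.rm O).pt c = {v} → ∀ b b', v ∈ (S.rm O).pt b → v ∈ (S.rm O).pt b' → ¬ (S.rm O).Tok b →
      ¬ (S.rm O).Tok b' → f' v b = f' v b')
    (F : A → B → Fin 3)
    (h1 : ∀ u v b b', u ≠ v → b ≠ b' → u ∈ S.pt b → v ∈ S.pt b → v ∈ S.pt b' → u ∈ O → v ∈ O →
      ¬ S.drp u b → ¬ S.drp v b' → F u b ≠ F v b')
    (h2 : ∀ u v b b', u ≠ v → b ≠ b' → u ∈ S.pt b → v ∈ S.pt b → v ∈ S.pt b' → u ∈ O → v ∉ O →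
      ¬ S.drp u b → ¬ S.drp v b' → F u b ≠ f' v b')
    (h3 : ∀ u v b b', u ≠ v → b ≠ b' → u ∈ S.pt b → v ∈ S.pt b → v ∈ S.pt b' → u ∉ O → v ∈ O →
      ¬ S.drp u b → ¬ S.drp v b' → f' u b ≠ F v b')
    (h4 : ∀ v c, v ∈ O → S.pt c = {v} → ∀ b b', v ∈ S.pt b → v ∈ S.pt b' → ¬ S.Tok b → ¬ S.Tok b' → F v b = F v b') :
    S.Colb := by
  have hm : ∀ {v : A} {b : B}, v ∈ S.pt b → v ∉ O → v ∈ (S.rm O).pt b := by
    intro v b hv hO
    rw [pt_rm]
    exact Finset.mem_sdiff.mpr ⟨hv, hO⟩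
  have hdr : ∀ {v : A} {b : B}, v ∈ S.pt b → v ∉ O → ¬ S.drp v b → ¬ (S.rm O).drp v b := by
    intro v b hv hO h h5
    exact h ⟨h5.1, (tok_rm hC htok hv hO).mp h5.2⟩
  refine ⟨fun v b => if v ∈ O then F v b else f' v b, fun u v b b' huv hbb hub hvb hvb' hdu hdv => ?_,
    fun v c hc b b' hb hb' ht ht' => ?_⟩
  · beta_reduce
    by_cases hu : u ∈ O
    · by_cases hv : v ∈ O
      · rw [if_pos hu, if_pos hv]
        exact h1 u v b b' huv hbb hub hvb hvb' hu hv hdu hdv
      · rw [if_pos hu, if_neg hv]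
        exact h2 u v b b' huv hbb hub hvb hvb' hu hv hdu hdv
    · by_cases hv : v ∈ O
      · rw [if_neg hu, if_pos hv]
        exact h3 u v b b' huv hbb hub hvb hvb' hu hv hdu hdv
      · rw [if_neg hu, if_neg hv]
        exact f1 u v b b' huv hbb (hm hub hu) (hm hvb hv) (hm hvb' hv) (hdr hub hu hdu) (hdr hvb' hv hdv)
  · beta_reduce
    by_cases hv : v ∈ O
    · rw [if_pos hv, if_pos hv]
      exact h4 v c hv hc b b' hb hb' ht ht'
    · rw [if_neg hv, if_neg hv]
      have hc' : (S.rm O).pt c = {v} := by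
        rw [pt_rm, hc]
        apply Finset.sdiff_eq_self_of_disjoint
        rw [Finset.disjoint_singleton_left]
        exact hv
      exact f2 v c hc' b b' (hm hb hv) (hm hb' hv) (fun h5 => ht ((tok_rm hC htok hb hv).mp h5))
        fun h5 => ht' ((tok_rm hC htok hb' hv).mp h5)

/-! ### the three cases -/

theorem qu_of_k4 {a b c d : A} (h : S.K4 a b c d) : Qu S {a, b, c, d} := by
  obtain ⟨ha, hb, hc, hd, hab, hac, had, hbc, hbd, hcd⟩ := h
  have n1 := hab.1
  have n2 := hac.1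
  have n3 := had.1
  have n4 := hbc.1
  have n5 := hbd.1
  have n6 := hcd.1
  refine ⟨?_, ?_, ?_⟩
  · rw [Finset.card_insert_of_notMem, Finset.card_insert_of_notMem, Finset.card_pair n6]
    · simp [n4, n5]
    · simp [n1, n2, n3]
  · intro u hu
    simp only [Finset.mem_insert, Finset.mem_singleton] at hu
    rcases hu with rfl | rfl | rfl | rfl <;> assumption
  · intro u hu v hv huv
    simp only [Finset.mem_insert, Finset.mem_singleton] at hu hv
    rcases hu with rfl | rfl | rfl | rfl <;> rcases hv with rfl | rfl | rfl | rfl <;>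
      first
        | exact absurd rfl huv
        | assumption
        | (apply adj_symm; assumption)

theorem three {s : Finset B} (hs : s.card = 3) {a b c : B} (ha : a ∈ s) (hb : b ∈ s) (hc : c ∈ s) (hab : a ≠ b)
    (hac : a ≠ c) (hbc : b ≠ c) {e : B} (he : e ∈ s) : e = a ∨ e = b ∨ e = c := by
  have h1 : ({a, b, c} : Finset B) = s := by
    apply Finset.eq_of_subset_of_card_le
    · intro x hx
      simp only [Finset.mem_insert, Finset.mem_singleton] at hx
      rcases hx with rfl | rfl | rfl <;> assumption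
    · rw [hs, Finset.card_eq_three.mpr ⟨a, b, c, hab, hac, hbc, rfl⟩]
  rw [← h1] at he
  simpa only [Finset.mem_insert, Finset.mem_singleton] using he

/-- a point of `O` of degree at most three: its blocks are inside `O` -/
theorem Qu.ins {O : Finset A} (hC : S.Cls) (h : Qu S O) {u v : A} (hu : u ∈ O) (hd : S.deg u ≤ 3) {b : B}
    (hub : u ∈ S.pt b) (hvb : v ∈ S.pt b) : v ∈ O := by
  by_cases huv : u = v
  · exact huv ▸ hu
  · by_cases hb : S.Tok b
    · exact h.tok hC hb hub hu hvb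
    · exact h.nb hu hd (mem_pt.mp hvb).1 (adj_nt hb hub hvb huv)

/-- the index of the perfect matching -/
def mt : Fin 4 → Fin 4 → Fin 3 := ![![0, 0, 1, 2], ![0, 0, 2, 1], ![1, 2, 0, 0], ![2, 1, 0, 0]]

theorem mt_ne : ∀ i j k : Fin 4, i ≠ j → j ≠ k → i ≠ k → mt i j ≠ mt j k := by decide

/-- no token meets `O` -/
theorem case2 {O : Finset A} (hC : S.Cls) (h : Qu S O) (hn : ∀ t, S.Tok t → ∀ u ∈ S.pt t, u ∉ O)
    (hc : (S.rm O).Colb) : S.Colb := by
  obtain ⟨f', f1, f2⟩ := hc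
  have hn' : ∀ u ∈ O, ∀ t, S.Tok t → u ∉ S.pt t := fun u hu t ht hut => hn t ht u hut hu
  have hins : ∀ {u v : A} {b : B}, u ∈ O → u ∈ S.pt b → v ∈ S.pt b → v ∈ O := fun {u v b} hu hub hvb =>
    h.ins hC hu (deg_notok hC (h.sub hu) (hn' u hu)) hub hvb
  obtain ⟨e⟩ : Nonempty (A → Fin 4) := ⟨fun _ => 0⟩
  obtain ⟨c, hc⟩ : ∃ c : A → Fin 4, ∀ u ∈ O, ∀ v ∈ O, u ≠ v → c u ≠ c v := by
    refine ⟨fun u => if hu : u ∈ O then (Finset.equivFinOfCardEq h.c4) ⟨u, hu⟩ else 0, fun u hu v hv huv => ?_⟩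
    beta_reduce
    rw [dif_pos hu, dif_pos hv]
    intro h1
    have h2 := (Finset.equivFinOfCardEq h.c4).injective h1
    exact huv (congrArg Subtype.val h2)
  refine glue hC (fun t ht u hut hu => absurd hu (hn t ht u hut)) f' f1 f2
    (fun u b => if h1 : ∃ v ∈ O, v ≠ u ∧ S.pt b = {u, v} then mt (c u) (c h1.choose) else 0) ?_ ?_ ?_ ?_
  · intro u v b b' huv hbb hub hvb hvb' hu hv _ _
    have key : ∀ (p q : A) (g : B), p ∈ O → q ∈ O → p ≠ q → S.pt g = {p, q} →
        (if h1 : ∃ v ∈ O, v ≠ p ∧ S.pt g = {p, v} then mt (c p) (c h1.choose) else 0) = mt (c p) (c q) := by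
      intro p q g hp hq hpq hg
      have h1 : ∃ v ∈ O, v ≠ p ∧ S.pt g = {p, v} := ⟨q, hq, hpq.symm, hg⟩
      rw [dif_pos h1]
      have h2 := h1.choose_spec
      have h3 : q ∈ S.pt g := by
        rw [hg]
        exact Finset.mem_insert_of_mem (Finset.mem_singleton_self q)
      rw [h2.2.2, Finset.mem_insert, Finset.mem_singleton] at h3
      rcases h3 with h3 | h3
      · exact absurd h3 hpq.symm
      · rw [← h3]
    have hb : ¬ S.Tok b := fun h1 => hn b h1 u hub hu
    rw [key u v b hu hv huv (pair hC hb hub hvb huv)]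
    obtain ⟨w, hw, hwv, hbw⟩ := (h.full hC hv (hn' v hv)).1 b' (mem_pt.mp hvb').2
    rw [key v w b' hv hw hwv.symm hbw]
    have huw : u ≠ w := by
      rintro rfl
      obtain ⟨g, -, h5⟩ := (h.full hC hv (hn' v hv)).2 u hu huv
      have h6 : u ∈ S.pt b' := by
        rw [hbw]
        exact Finset.mem_insert_of_mem (Finset.mem_singleton_self u)
      exact hbb ((h5 b hvb hub).trans (h5 b' hvb' h6).symm)
    exact mt_ne _ _ _ (hc u hu v hv huv) (hc v hv w hw hwv.symm) (hc u hu w hw huw)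
  · intro u v b b' _ _ hub hvb _ hu hv _ _
    exact absurd (hins hu hub hvb) hv
  · intro u v b b' _ _ hub hvb _ hu hv _ _
    exact absurd (hins hv hvb hub) hu
  · intro v g hv hg b b' hb hb' _ _
    exfalso
    have h1 : v ∈ S.pt g := by
      rw [hg]
      exact Finset.mem_singleton_self v
    obtain ⟨w, hw, hwv, hbw⟩ := (h.full hC hv (hn' v hv)).1 g (mem_pt.mp h1).2
    have h2 : w ∈ S.pt g := by
      rw [hbw]
      exact Finset.mem_insert_of_mem (Finset.mem_singleton_self w)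
    rw [hg, Finset.mem_singleton] at h2
    exact hwv h2

/-- the fourth point of `O` -/
theorem Qu.fourth {O : Finset A} (hC : S.Cls) (h : Qu S O) {t : B} (ht : S.Tok t) (hO : S.pt t ⊆ O) :
    ∃ o ∈ O, o ∉ S.pt t ∧ (∀ v ∈ O, v ≠ o → v ∈ S.pt t) ∧ ∀ t', S.Tok t' → o ∉ S.pt t' := by
  have h1 : (O \ S.pt t).card = 1 := by
    have h2 : (S.pt t).card = 3 := ht
    rw [Finset.card_sdiff_of_subset hO, h.c4, h2]
  obtain ⟨o, ho⟩ := Finset.card_eq_one.mp h1
  have h2 : o ∈ O \ S.pt t := by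
    rw [ho]
    exact Finset.mem_singleton_self o
  rw [Finset.mem_sdiff] at h2
  refine ⟨o, h2.1, h2.2, fun v hv hvo => ?_, fun t' ht' hot => ?_⟩
  · by_contra hc
    have h3 : v ∈ O \ S.pt t := Finset.mem_sdiff.mpr ⟨hv, hc⟩
    rw [ho, Finset.mem_singleton] at h3
    exact hvo h3
  · have h3 : S.pt t' ⊆ O := h.tok hC ht' hot h2.1
    have h4 : ¬ Disjoint (S.pt t) (S.pt t') := by
      intro h5
      have h6 := Finset.card_le_card (Finset.union_subset hO h3)
      have h7 : (S.pt t).card = 3 := ht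
      have h8 : (S.pt t').card = 3 := ht'
      rw [Finset.card_union_of_disjoint h5, h.c4] at h6
      omega
    rw [Finset.not_disjoint_iff] at h4
    obtain ⟨v, hv, hv'⟩ := h4
    have h5 := hC.tokd v t t' hv hv' ht ht'
    exact h2.2 (h5 ▸ hot)

/-- an undropped token inside `O` -/
theorem case1 {O : Finset A} (hC : S.Cls) (h : Qu S O) {t : B} (ht : S.Tok t) (hO : S.pt t ⊆ O)
    (hnd : ∀ v ∈ S.pt t, v ∉ S.D) (hc : (S.rm O).Colb) : S.Colb := by
  obtain ⟨f', f1, f2⟩ := hc
  obtain ⟨o, hoO, hot, hoth, hotok⟩ := h.fourth hC ht hO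
  have hod : S.deg o ≤ 3 := deg_notok hC (h.sub hoO) hotok
  obtain ⟨hfo1, hfo2⟩ := h.full hC hoO hotok
  have htok : ∀ t, S.Tok t → ∀ u ∈ S.pt t, u ∈ O → S.pt t ⊆ O := fun t ht u hut hu => h.tok hC ht hut hu
  -- a block different from the token of a point of the token is no token
  have hnt : ∀ {v : A} {b : B}, v ∈ S.pt t → v ∈ S.pt b → b ≠ t → ¬ S.Tok b := fun {v b} hv hb hbt hT =>
    hbt (hC.tokd v b t hb hv hT ht)
  -- two points of the token share only the token
  have hsh : ∀ {u v : A} {b : B}, u ∈ S.pt t → v ∈ S.pt t → u ≠ v → u ∈ S.pt b → v ∈ S.pt b → b = t := by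
    intro u v b hu hv huv hub hvb
    by_contra hbt
    obtain ⟨x, hx, hxu, hxv⟩ : ∃ x ∈ S.pt t, x ≠ u ∧ x ≠ v := by
      have h1 : (((S.pt t).erase u).erase v).Nonempty := by
        apply Finset.card_pos.mp
        have h2 : (S.pt t).card = 3 := ht
        rw [Finset.card_erase_of_mem (Finset.mem_erase.mpr ⟨huv.symm, hv⟩), Finset.card_erase_of_mem hu, h2]
        norm_num
      obtain ⟨x, hx⟩ := h1
      rw [Finset.mem_erase, Finset.mem_erase] at hx
      exact ⟨x, hx.2.2, hx.2.1, hx.1⟩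
    have h1 := (hC.e2 t ht hnd u hu v hv huv ⟨b, hbt, hub, hvb⟩ o hot
      (h.ad u (hO hu) o hoO fun h2 => hot (h2 ▸ hu)) (h.ad v (hO hv) o hoO fun h2 => hot (h2 ▸ hv)) x hx hxu hxv).2
    exact h1 (h.ad x (hO hx) o hoO fun h2 => hot (h2 ▸ hx))
  -- contacts
  have hct : ∀ {u v : A} {b : B}, u ∈ O → v ∉ O → u ∈ S.pt b → v ∈ S.pt b →
      u ∈ S.pt t ∧ b ≠ t ∧ o ∉ S.pt b ∧ 3 < S.deg u ∧ S.pt b = {u, v} := by
    intro u v b hu hv hub hvb
    have huo : u ≠ o := by
      rintro rfl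
      exact hv (h.ins hC hu hod hub hvb)
    have hut := hoth u hu huo
    have hbt : b ≠ t := by
      rintro rfl
      exact hv (hO hvb)
    have huv : u ≠ v := fun h1 => hv (h1 ▸ hu)
    have hpt := pair hC (hnt hut hub hbt) hub hvb huv
    refine ⟨hut, hbt, ?_, ?_, hpt⟩
    · intro hob
      rw [hpt, Finset.mem_insert, Finset.mem_singleton] at hob
      rcases hob with h1 | h1
      · exact huo h1.symm
      · exact hv (h1 ▸ hoO)
    · by_contra hd
      exact hv (h.ins hC hu (not_lt.mp hd) hub hvb)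
  -- the colours
  obtain ⟨ω, η, ξ, h12, h13, h23, hcol⟩ : ∃ ω η ξ : Fin 3, ω ≠ η ∧ ω ≠ ξ ∧ η ≠ ξ ∧
      ∀ u v b, u ∈ O → v ∉ O → u ∈ S.pt b → v ∈ S.pt b →
        f' v b = ω ∧ ∀ b', b' ≠ b → v ∈ S.pt b' → ¬ S.drp v b' → f' v b' ≠ η := by
    by_cases hex : ∃ u v b, u ∈ O ∧ v ∉ O ∧ u ∈ S.pt b ∧ v ∈ S.pt b
    · obtain ⟨u, v, b, hu, hv, hub, hvb⟩ := hex
      obtain ⟨hut, hbt, hob, hdu, hpt⟩ := hct hu hv hub hvb
      have huniq : ∀ u' v' b', u' ∈ O → v' ∉ O → u' ∈ S.pt b' → v' ∈ S.pt b' → v' = v ∧ b' = b := by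
        intro u' v' b' hu' hv' hub' hvb'
        obtain ⟨hut', hbt', hob', hdu', hpt'⟩ := hct hu' hv' hub' hvb'
        have huu : u' = u := by
          by_contra hne
          exact absurd (deg_oth hC ht hut hdu hut' hne) (not_le.mpr hdu')
        subst huu
        obtain ⟨g, hg, -⟩ := hfo2 u' hu' fun h1 => hot (h1 ▸ hut)
        have hug : u' ∈ S.pt g := by
          rw [hg]
          exact Finset.mem_insert_of_mem (Finset.mem_singleton_self u')
        have hog : o ∈ S.pt g := by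
          rw [hg]
          exact Finset.mem_insert_self o _
        have hgt : t ≠ g := by
          rintro rfl
          exact hot hog
        have hgb : g ≠ b := by
          rintro rfl
          exact hob hog
        have h1 := three (hC.bl3 u' (h.sub hu')) (mem_pt.mp hut).2 (mem_pt.mp hug).2 (mem_pt.mp hub).2 hgt hbt.symm hgb
          (mem_pt.mp hub').2
        have h2 : b' = b := by
          rcases h1 with h1 | h1 | h1
          · exact absurd h1 hbt'
          · exact absurd (h1 ▸ hog) hob'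
          · exact h1
        subst h2
        rw [hpt, Finset.mem_insert, Finset.mem_singleton] at hvb'
        rcases hvb' with h3 | h3
        · exact absurd (h3 ▸ hu') hv'
        · exact ⟨h3, rfl⟩
      have hvb1 : (S.rm O).pt b = {v} := by
        rw [pt_rm, hpt]
        ext w
        simp only [Finset.mem_sdiff, Finset.mem_insert, Finset.mem_singleton]
        constructor
        · rintro ⟨h1 | h1, h2⟩
          · exact absurd (h1 ▸ hu) h2
          · exact h1
        · rintro rfl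
          exact ⟨Or.inr rfl, hv⟩
      have hmv : ∀ {b' : B}, v ∈ S.pt b' → v ∈ (S.rm O).pt b' := by
        intro b' hb'
        rw [pt_rm]
        exact Finset.mem_sdiff.mpr ⟨hb', hv⟩
      obtain ⟨τ, hτ⟩ : ∃ τ : Fin 3, ∀ b', v ∈ S.pt b' → S.Tok b' → f' v b' = τ := by
        by_cases hvt : ∃ b', v ∈ S.pt b' ∧ S.Tok b'
        · obtain ⟨b0, hb0, hb0t⟩ := hvt
          exact ⟨f' v b0, fun b' hb' hbt' => by rw [hC.tokd v b' b0 hb' hb0 hbt' hb0t]⟩
        · exact ⟨0, fun b' hb' hbt' => absurd ⟨b', hb', hbt'⟩ hvt⟩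
      obtain ⟨η, hη1, hη2⟩ : ∃ η : Fin 3, f' v b ≠ η ∧ τ ≠ η := by
        generalize f' v b = p
        revert p τ
        have h9 : ∀ p q : Fin 3, ∃ η : Fin 3, p ≠ η ∧ q ≠ η := by decide
        intro τ _ p
        exact h9 p τ
      obtain ⟨ξ, hξ1, hξ2⟩ : ∃ ξ : Fin 3, f' v b ≠ ξ ∧ η ≠ ξ := by
        have h9 : ∀ p q : Fin 3, ∃ η : Fin 3, p ≠ η ∧ q ≠ η := by decide
        exact h9 _ _
      refine ⟨f' v b, η, ξ, hη1, hξ1, hξ2, fun u' v' b' hu' hv' hub' hvb' => ?_⟩
      obtain ⟨rfl, rfl⟩ := huniq u' v' b' hu' hv' hub' hvb'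
      refine ⟨rfl, fun b'' hne hvb'' hdr => ?_⟩
      by_cases hT : S.Tok b''
      · rw [hτ b'' hvb'' hT]
        exact hη2
      · have h1 := f2 v' b' hvb1 b'' b' (hmv hvb'') (hmv hvb') (fun h2 => hT ((tok_rm hC htok hvb'' hv').mp h2))
          (fun h2 => hnt hut hub hbt ((tok_rm hC htok hvb' hv').mp h2))
        rw [h1]
        exact hη1
    · exact ⟨0, 1, 2, by decide, by decide, by decide, fun u v b hu hv hub hvb => absurd ⟨u, v, b, hu, hv, hub, hvb⟩ hex⟩
  refine glue hC htok f' f1 f2 (fun v b => if v = o then ω else if b = t then ξ else η) ?_ ?_ ?_ ?_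
  · intro u v b b' huv hbb hub hvb hvb' hu hv _ _
    by_cases huo : u = o
    · rw [if_pos huo, if_neg fun h1 => huv (huo.trans h1.symm)]
      split_ifs
      · exact h13
      · exact h12
    · rw [if_neg huo]
      by_cases hvo : v = o
      · rw [if_pos hvo]
        split_ifs
        · exact h13.symm
        · exact h12.symm
      · rw [if_neg hvo]
        have h1 : b = t := hsh (hoth u hu huo) (hoth v hv hvo) huv hub hvb
        rw [if_pos h1, if_neg fun h2 => hbb (h1.trans h2.symm)]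
        exact h23.symm
  · intro u v b b' huv hbb hub hvb hvb' hu hv _ hdr
    obtain ⟨hut, hbt, -, -, -⟩ := hct hu hv hub hvb
    have huo : ¬ u = o := fun h1 => hot (h1 ▸ hut)
    rw [if_neg huo, if_neg hbt]
    exact ((hcol u v b hu hv hub hvb).2 b' hbb.symm hvb' hdr).symm
  · intro u v b b' huv hbb hub hvb hvb' hu hv _ _
    obtain ⟨hvt, hbt, -, -, -⟩ := hct hv hu hvb hub
    have hvo : ¬ v = o := fun h1 => hot (h1 ▸ hvt)
    rw [if_neg hvo, (hcol v u b hv hu hvb hub).1]
    split_ifs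
    · exact h13
    · exact h12
  · intro v c hv _ b b' hb hb' hbT hbT'
    by_cases hvo : v = o
    · rw [if_pos hvo, if_pos hvo]
    · have h1 : ¬ b = t := fun h1 => hbT (h1 ▸ ht)
      have h2 : ¬ b' = t := fun h1 => hbT' (h1 ▸ ht)
      rw [if_neg hvo, if_neg hvo, if_neg h1, if_neg h2]

/-- a token meeting `O` has an undropped point -/
theorem Qu.ndr {O : Finset A} (hC : S.Cls) (h : Qu S O) {t : B} (ht : S.Tok t) {u : A} (hut : u ∈ S.pt t)
    (hu : u ∈ O) : ∃ r ∈ S.pt t, r ∉ S.D := by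
  by_contra hc
  push Not at hc
  have h1 : ∀ v ∈ O.erase u, ∃ b, ¬ S.Tok b ∧ u ∈ S.pt b ∧ v ∈ S.pt b ∧ b ∉ ({t} : Finset B) := by
    intro v hv
    rw [Finset.mem_erase] at hv
    obtain ⟨-, b, h2, h3, h4⟩ := h.ad u hu v hv.2 (Ne.symm hv.1)
    have hbt : b ≠ t := by
      rintro rfl
      exact h4 ⟨⟨hc u h2, ht⟩, ⟨hc v h3, ht⟩⟩
    refine ⟨b, fun h5 => hbt (hC.tokd u b t h2 hut h5 ht), h2, h3, ?_⟩
    rw [Finset.mem_singleton]
    exact hbt
  have hne : Nonempty B := ⟨t⟩
  choose! φ hφ using h1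
  have h3 := (count hC (h.sub hu) (O.erase u) (Finset.notMem_erase u O) {t} (by
    rw [Finset.singleton_subset_iff]
    exact (mem_pt.mp hut).2) φ hφ).1
  rw [Finset.card_erase_of_mem hu, h.c4, Finset.card_singleton] at h3
  omega

/-- a dropped token inside `O` -/
theorem case3 {O : Finset A} (hC : S.Cls) (h : Qu S O) {t : B} (ht : S.Tok t) (hO : S.pt t ⊆ O) {x : A}
    (hx : x ∈ S.pt t) (hxD : x ∈ S.D) (hc : (S.rm O).Colb) : S.Colb := by
  obtain ⟨f', f1, f2⟩ := hc
  obtain ⟨o, hoO, hot, hoth, hotok⟩ := h.fourth hC ht hO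
  have hod : S.deg o ≤ 3 := deg_notok hC (h.sub hoO) hotok
  obtain ⟨hfo1, hfo2⟩ := h.full hC hoO hotok
  have htok : ∀ t, S.Tok t → ∀ u ∈ S.pt t, u ∈ O → S.pt t ⊆ O := fun t ht u hut hu => h.tok hC ht hut hu
  obtain ⟨x', hx', hne, hxD'⟩ := hC.drop2 t ht x hx hxD
  obtain ⟨z, hz, hzD⟩ := h.ndr hC ht hx (hO hx)
  have hzx : z ≠ x := fun h1 => hzD (h1 ▸ hxD)
  have hzx' : z ≠ x' := fun h1 => hzD (h1 ▸ hxD')
  have hzo : z ≠ o := fun h1 => hot (h1 ▸ hz)
  have hdeg : ∀ v ∈ O, S.deg v ≤ 3 := by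
    intro v hv
    by_cases hvo : v = o
    · exact hvo ▸ hod
    · exact deg_drop hC ht (hoth v hv hvo) hx hxD
  have hpt3 : ∀ v ∈ S.pt t, v = z ∨ v = x ∨ v = x' := fun v hv => three ht hz hx hx' hzx hzx' hne.symm hv
  obtain ⟨-, g, hxg, hxg', hdr⟩ := h.ad x (hO hx) x' (hO hx') hne.symm
  have hgt : g ≠ t := by
    rintro rfl
    exact hdr ⟨⟨hxD, ht⟩, ⟨hxD', ht⟩⟩
  have hgT : ¬ S.Tok g := fun h1 => hgt (hC.tokd x g t hxg hx h1 ht)
  have hgpt : S.pt g = {x, x'} := pair hC hgT hxg hxg' hne.symm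
  have hog : o ∉ S.pt g := by
    intro h1
    rw [hgpt, Finset.mem_insert, Finset.mem_singleton] at h1
    rcases h1 with h1 | h1
    · exact hot (h1 ▸ hx)
    · exact hot (h1 ▸ hx')
  have hzg : z ∉ S.pt g := by
    intro h1
    rw [hgpt, Finset.mem_insert, Finset.mem_singleton] at h1
    rcases h1 with h1 | h1
    · exact hzx h1
    · exact hzx' h1
  have hX : ∀ v, v = x ∨ v = x' → v ∈ S.pt t ∧ v ∈ S.pt g ∧ v ∈ S.D ∧
      ∃ k, S.pt k = {o, v} ∧ ∀ b, v ∈ S.pt b → b = t ∨ b = g ∨ b = k := by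
    intro v hv
    have hvt : v ∈ S.pt t := by
      rcases hv with rfl | rfl
      · exact hx
      · exact hx'
    have hvg : v ∈ S.pt g := by
      rcases hv with rfl | rfl
      · exact hxg
      · exact hxg'
    have hvD : v ∈ S.D := by
      rcases hv with rfl | rfl
      · exact hxD
      · exact hxD'
    obtain ⟨k, hk, -⟩ := hfo2 v (hO hvt) fun h1 => hot (h1 ▸ hvt)
    have hvk : v ∈ S.pt k := by
      rw [hk]
      exact Finset.mem_insert_of_mem (Finset.mem_singleton_self v)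
    have hok : o ∈ S.pt k := by
      rw [hk]
      exact Finset.mem_insert_self o _
    have htk : t ≠ k := by
      rintro rfl
      exact hot hok
    have hgk : g ≠ k := by
      rintro rfl
      exact hog hok
    exact ⟨hvt, hvg, hvD, k, hk, fun b hb => three (hC.bl3 v (h.sub (hO hvt))) (mem_pt.mp hvt).2 (mem_pt.mp hvg).2
      (mem_pt.mp hvk).2 hgt.symm htk hgk (mem_pt.mp hb).2⟩
  have hXo : ∀ v, v = x ∨ v = x' → v ≠ o := fun v hv h1 => hot (h1 ▸ (hX v hv).1)
  have hXz : ∀ v, v = x ∨ v = x' → v ≠ z := by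
    rintro v (rfl | rfl)
    · exact hzx.symm
    · exact hzx'.symm
  -- the blocks of a dropped point containing `z`
  have hBz : ∀ v b, (v = x ∨ v = x') → v ∈ S.pt b → z ∈ S.pt b → b = t := by
    intro v b hv hvb hzb
    obtain ⟨-, -, -, k, hk, hall⟩ := hX v hv
    rcases hall b hvb with h1 | h1 | h1
    · exact h1
    · exact absurd (h1 ▸ hzb) hzg
    · rw [h1, hk, Finset.mem_insert, Finset.mem_singleton] at hzb
      rcases hzb with h2 | h2
      · exact absurd h2 hzo
      · exact absurd h2.symm (hXz v hv)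
  have hcl : ∀ v ∈ O, v ≠ z → v ≠ o → v = x ∨ v = x' := by
    intro v hv hvz hvo
    rcases hpt3 v (hoth v hv hvo) with h1 | h1 | h1
    · exact absurd h1 hvz
    · exact Or.inl h1
    · exact Or.inr h1
  refine glue hC htok f' f1 f2 (fun v b => if v = z then (if b = t then 2 else 1) else if v = o then
    (if z ∈ S.pt b then 0 else 2) else (if o ∈ S.pt b then 1 else 0)) ?_ ?_ ?_ ?_
  · intro u v b b' huv hbb hub hvb hvb' hu hv hdu hdv
    by_cases huz : u = z
    · rw [if_pos huz]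
      have hvz : ¬ v = z := fun h1 => huv (huz.trans h1.symm)
      rw [if_neg hvz]
      by_cases hvo : v = o
      · have hbt : ¬ b = t := by
          rintro rfl
          exact hot (hvo ▸ hvb)
        rw [if_neg hbt, if_pos hvo]
        split_ifs <;> decide
      · have hbt : b = t := hBz v b (hcl v hv hvz hvo) hvb (huz ▸ hub)
        rw [if_pos hbt, if_neg hvo]
        split_ifs <;> decide
    · rw [if_neg huz]
      by_cases huo : u = o
      · rw [if_pos huo]
        have hvo : ¬ v = o := fun h1 => huv (huo.trans h1.symm)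
        by_cases hvz : v = z
        · have hzb : z ∈ S.pt b := hvz ▸ hvb
          rw [if_pos hzb, if_pos hvz]
          split_ifs <;> decide
        · have hv' := hcl v hv hvz hvo
          have hzb : ¬ z ∈ S.pt b := by
            intro h1
            have h2 := hBz v b hv' hvb h1
            rw [h2, huo] at hub
            exact hot hub
          rw [if_neg hzb, if_neg hvz, if_neg hvo]
          split_ifs <;> decide
      · rw [if_neg huo]
        have hu' := hcl u hu huz huo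
        have hbt : b ≠ t := by
          rintro rfl
          exact hdu ⟨(hX u hu').2.2.1, ht⟩
        by_cases hvz : v = z
        · exact absurd (hBz u b hu' hub (hvz ▸ hvb)) hbt
        · rw [if_neg hvz]
          by_cases hvo : v = o
          · have hob : o ∈ S.pt b := hvo ▸ hvb
            rw [if_pos hob, if_pos hvo]
            split_ifs <;> decide
          · have hv' := hcl v hv hvz hvo
            have hbg : b = g := by
              obtain ⟨-, -, -, k, hk, hall⟩ := hX v hv'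
              rcases hall b hvb with h1 | h1 | h1
              · exact absurd h1 hbt
              · exact h1
              · rw [h1, hk, Finset.mem_insert, Finset.mem_singleton] at hub
                rcases hub with h2 | h2
                · exact absurd h2 huo
                · exact absurd h2 huv
            have hbt' : b' ≠ t := by
              rintro rfl
              exact hdv ⟨(hX v hv').2.2.1, ht⟩
            have hob' : o ∈ S.pt b' := by
              obtain ⟨-, -, -, k, hk, hall⟩ := hX v hv'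
              rcases hall b' hvb' with h1 | h1 | h1
              · exact absurd h1 hbt'
              · exact absurd (hbg.trans h1.symm) hbb
              · rw [h1, hk]
                exact Finset.mem_insert_self o _
            have hob : ¬ o ∈ S.pt b := hbg ▸ hog
            rw [if_neg hob, if_neg hvo, if_pos hob']
            decide
  · intro u v b b' _ _ hub hvb _ hu hv _ _
    exact absurd (h.ins hC hu (hdeg u hu) hub hvb) hv
  · intro u v b b' _ _ hub hvb _ hu hv _ _
    exact absurd (h.ins hC hv (hdeg v hv) hvb hub) hu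
  · intro v c hv hvc b b' hb hb' hbT hbT'
    have hcv : v ∈ S.pt c := by
      rw [hvc]
      exact Finset.mem_singleton_self v
    have hun : ∀ w ∈ S.pt c, w = v := by
      intro w hw
      rwa [hvc, Finset.mem_singleton] at hw
    have h1 : ¬ b = t := fun h1 => hbT (h1 ▸ ht)
    have h2 : ¬ b' = t := fun h1 => hbT' (h1 ▸ ht)
    by_cases hvz : v = z
    · rw [if_pos hvz, if_pos hvz, if_neg h1, if_neg h2]
    · exfalso
      by_cases hvo : v = o
      · obtain ⟨w, hw, hwo, hcw⟩ := hfo1 c (mem_pt.mp (hvo ▸ hcv)).2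
        apply hwo
        rw [← hvo]
        apply hun
        rw [hcw]
        exact Finset.mem_insert_of_mem (Finset.mem_singleton_self w)
      · have hv' := hcl v hv hvz hvo
        obtain ⟨-, -, -, k, hk, hall⟩ := hX v hv'
        rcases hall c hcv with h3 | h3 | h3
        · exact hvz (hun z (h3 ▸ hz)).symm
        · have h4 := hun x (h3 ▸ hxg)
          have h5 := hun x' (h3 ▸ hxg')
          exact hne (h5.trans h4.symm)
        · apply hvo
          symm
          apply hun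
          rw [h3, hk]
          exact Finset.mem_insert_self o _

theorem r4 : ST_R1 → ST_R4 := by
  intro hR1 A B S a b c d hC hK
  have h := qu_of_k4 hK
  have htok : ∀ t, S.Tok t → ∀ u ∈ S.pt t, u ∈ ({a, b, c, d} : Finset A) → S.pt t ⊆ {a, b, c, d} :=
    fun t ht u hut hu => h.tok hC ht hut hu
  refine ⟨hR1 A B S _ hC ?_, fun hc => ?_⟩
  · rintro t ht - ⟨u, hut, hu⟩ w hw
    exact htok t ht u hut hu hw
  · by_cases hex : ∃ t, S.Tok t ∧ ∃ u ∈ S.pt t, u ∈ ({a, b, c, d} : Finset A)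
    · obtain ⟨t, ht, u, hut, hu⟩ := hex
      have hO := htok t ht u hut hu
      by_cases hD : ∃ x ∈ S.pt t, x ∈ S.D
      · obtain ⟨x, hx, hxD⟩ := hD
        exact case3 hC h ht hO hx hxD hc
      · push Not at hD
        exact case1 hC h ht hO hD hc
    · exact case2 hC h (fun t ht u hut hu => hex ⟨t, ht, u, hut, hu⟩) hc

end Pool.Agent.Helper91.Inj
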