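import Pool.Agent.Helper65.Inj.Defs

/-!
G2, part 1: tools for the token version of Brooks' theorem.
-/

set_option autoImplicit false

namespace Pool.Agent.Helper91.Inj

theorem fin3_a : ∀ p q : Fin 3, ∃ r : Fin 3, r ≠ p ∧ r ≠ q := by decide

theorem fin3_b : ∀ p q r : Fin 3, ¬ (q = r ∧ r ≠ p) → ∃ s t : Fin 3, s ≠ t ∧ s ≠ p ∧ t ≠ p ∧ s ≠ q ∧ t ≠ r := by
  decide

theorem fin3_c : ∀ p q r : Fin 3, (r = p ∨ r = q) → ∃ s t : Fin 3, (s ≠ p ∧ s ≠ t ∧ s ≠ r ∧ t ≠ p) ∧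
    ∃ s' t' : Fin 3, t ≠ t' ∧ s' ≠ q ∧ s' ≠ t' ∧ s' ≠ r ∧ t' ≠ q := by
  decide

theorem fin3_d : ∀ p q r : Fin 3, p ≠ q → ∃ s : Fin 3, (s = p ∨ s = q) ∧ s ≠ r := by decide

open Classical Pool.Agent.Helper65.Inj

section

variable {V : Type} {U U' : Finset V} {E E' : V → V → Prop}

/-! ### degrees -/

theorem dg_le_inj {v v' : V} (φ : V → V) (h : ∀ w ∈ U', E' v w → φ w ∈ U ∧ E v' (φ w))
    (hi : ∀ w ∈ U', ∀ w' ∈ U', E' v w → E' v w' → φ w = φ w' → w = w') : dg U' E' v ≤ dg U E v' := by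
  unfold dg
  apply Finset.card_le_card_of_injOn φ
  · intro w hw
    have hw' := Finset.mem_filter.mp (Finset.mem_coe.mp hw)
    exact Finset.mem_coe.mpr (Finset.mem_filter.mpr (h w hw'.1 hw'.2))
  · intro w hw w' hw' he
    have h1 := Finset.mem_filter.mp (Finset.mem_coe.mp hw)
    have h2 := Finset.mem_filter.mp (Finset.mem_coe.mp hw')
    exact hi w h1.1 w' h2.1 h1.2 h2.2 he

theorem dg_mono {v : V} (h : U' ⊆ U) (hE : ∀ w ∈ U', E' v w → E v w) : dg U' E' v ≤ dg U E v :=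
  dg_le_inj (fun w => w) (fun w hw h1 => ⟨h hw, hE w hw h1⟩) fun _ _ _ _ _ _ h1 => h1

theorem dg_erase {v a : V} (ha : a ∈ U) (h : E v a) : dg (U.erase a) E v + 1 = dg U E v := by
  unfold dg
  rw [Finset.filter_erase, Finset.card_erase_add_one]
  exact Finset.mem_filter.mpr ⟨ha, h⟩

/-- removing a neighbour -/
theorem dg_lt {v a : V} (h : U' ⊆ U) (ha : a ∈ U) (ha' : a ∉ U') (h1 : E v a) : dg U' E v + 1 ≤ dg U E v := by
  rw [← dg_erase ha h1]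
  have h2 : dg U' E v ≤ dg (U.erase a) E v := dg_mono (fun w hw => Finset.mem_erase.mpr
    ⟨fun h3 => ha' (h3 ▸ hw), h hw⟩) fun _ _ h3 => h3
  omega

/-- removing two neighbours -/
theorem dg_lt2 {v a b : V} (h : U' ⊆ U) (ha : a ∈ U) (ha' : a ∉ U') (h1 : E v a) (hb : b ∈ U) (hb' : b ∉ U')
    (h2 : E v b) (hab : a ≠ b) : dg U' E v + 2 ≤ dg U E v := by
  rw [← dg_erase ha h1]
  have h3 : dg U' E v + 1 ≤ dg (U.erase a) E v := dg_lt (fun w hw => Finset.mem_erase.mpr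
    ⟨fun h3 => ha' (h3 ▸ hw), h hw⟩) (Finset.mem_erase.mpr ⟨hab.symm, hb⟩) hb' h2
  omega

theorem nbs {v : V} {L : Finset V} (hL : L ⊆ U) (hE : ∀ w ∈ L, E v w) (hc : dg U E v ≤ L.card) {w : V} (hw : w ∈ U)
    (h : E v w) : w ∈ L := by
  have h1 : L ⊆ U.filter fun w => E v w := fun u hu => Finset.mem_filter.mpr ⟨hL hu, hE u hu⟩
  have h2 : L = U.filter fun w => E v w := Finset.eq_of_subset_of_card_le h1 hc
  rw [h2]
  exact Finset.mem_filter.mpr ⟨hw, h⟩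

theorem nb3 {v a b c : V} (hd : dg U E v ≤ 3) (ha : a ∈ U) (hb : b ∈ U) (hc : c ∈ U) (h1 : E v a) (h2 : E v b)
    (h3 : E v c) (hab : a ≠ b) (hac : a ≠ c) (hbc : b ≠ c) {w : V} (hw : w ∈ U) (h : E v w) :
    w = a ∨ w = b ∨ w = c := by
  have h4 : ({a, b, c} : Finset V).card = 3 := Finset.card_eq_three.mpr ⟨a, b, c, hab, hac, hbc, rfl⟩
  have h5 := nbs (L := {a, b, c}) (v := v) (E := E) (U := U) (by
    intro u hu
    simp only [Finset.mem_insert, Finset.mem_singleton] at hu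
    rcases hu with rfl | rfl | rfl <;> assumption) (by
    intro u hu
    simp only [Finset.mem_insert, Finset.mem_singleton] at hu
    rcases hu with rfl | rfl | rfl <;> assumption) (by rw [h4]; exact hd) hw h
  simpa only [Finset.mem_insert, Finset.mem_singleton] using h5

theorem nb4 {v a b c d : V} (hd : dg U E v ≤ 4) (ha : a ∈ U) (hb : b ∈ U) (hc : c ∈ U) (hd' : d ∈ U) (h1 : E v a)
    (h2 : E v b) (h3 : E v c) (h4 : E v d) (hab : a ≠ b) (hac : a ≠ c) (had : a ≠ d) (hbc : b ≠ c) (hbd : b ≠ d)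
    (hcd : c ≠ d) {w : V} (hw : w ∈ U) (h : E v w) : w = a ∨ w = b ∨ w = c ∨ w = d := by
  have h5 : ({a, b, c, d} : Finset V).card = 4 := by
    rw [Finset.card_insert_of_notMem, Finset.card_eq_three.mpr ⟨b, c, d, hbc, hbd, hcd, rfl⟩]
    simp [hab, hac, had]
  have h6 := nbs (L := {a, b, c, d}) (v := v) (E := E) (U := U) (by
    intro u hu
    simp only [Finset.mem_insert, Finset.mem_singleton] at hu
    rcases hu with rfl | rfl | rfl | rfl <;> assumption) (by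
    intro u hu
    simp only [Finset.mem_insert, Finset.mem_singleton] at hu
    rcases hu with rfl | rfl | rfl | rfl <;> assumption) (by rw [h5]; exact hd) hw h
  simpa only [Finset.mem_insert, Finset.mem_singleton] using h6

/-! ### four pairwise adjacent points -/

/-- a set of four pairwise adjacent points -/
structure KK (U : Finset V) (E : V → V → Prop) (K : Finset V) : Prop where
  sub : K ⊆ U
  c4 : K.card = 4
  ad : ∀ u ∈ K, ∀ v ∈ K, u ≠ v → E u v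

theorem noK4_iff (hs : ∀ u v, E u v → E v u) (hi : ∀ u, ¬ E u u) : NoK4 U E ↔ ∀ K, ¬ KK U E K := by
  constructor
  · intro h K hK
    apply h
    obtain ⟨a, b, c, d, h1, h2, h3, h4, h5, h6, rfl⟩ := Finset.card_eq_four.mp hK.c4
    have ha : a ∈ ({a, b, c, d} : Finset V) := by simp
    have hb : b ∈ ({a, b, c, d} : Finset V) := by simp
    have hc : c ∈ ({a, b, c, d} : Finset V) := by simp
    have hd : d ∈ ({a, b, c, d} : Finset V) := by simp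
    exact ⟨a, hK.sub ha, b, hK.sub hb, c, hK.sub hc, d, hK.sub hd, hK.ad a ha b hb h1, hK.ad a ha c hc h2,
      hK.ad a ha d hd h3, hK.ad b hb c hc h4, hK.ad b hb d hd h5, hK.ad c hc d hd h6⟩
  · rintro h ⟨a, ha, b, hb, c, hc, d, hd, h1, h2, h3, h4, h5, h6⟩
    have ne : ∀ {u v : V}, E u v → u ≠ v := by
      rintro u v h7 rfl
      exact hi u h7
    apply h {a, b, c, d}
    refine ⟨?_, ?_, ?_⟩
    · intro u hu
      simp only [Finset.mem_insert, Finset.mem_singleton] at hu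
      rcases hu with rfl | rfl | rfl | rfl <;> assumption
    · exact Finset.card_eq_four.mpr ⟨a, b, c, d, ne h1, ne h2, ne h3, ne h4, ne h5, ne h6, rfl⟩
    · intro u hu v hv huv
      simp only [Finset.mem_insert, Finset.mem_singleton] at hu hv
      rcases hu with rfl | rfl | rfl | rfl <;> rcases hv with rfl | rfl | rfl | rfl <;>
        first
          | exact absurd rfl huv
          | assumption
          | (apply hs; assumption)

theorem KK.nb {K : Finset V} (h : KK U E K) {v w : V} (hv : v ∈ K) (hd : dg U E v ≤ 3) (hw : w ∈ U) (h1 : E v w) :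
    w ∈ K := by
  have h2 : w ∈ K.erase v := by
    refine nbs (E := E) (v := v) (fun u hu => h.sub (Finset.mem_of_mem_erase hu)) (fun u hu =>
      h.ad v hv u (Finset.mem_of_mem_erase hu) (Finset.ne_of_mem_erase hu).symm) ?_ hw h1
    rw [Finset.card_erase_of_mem hv, h.c4]
    exact hd
  exact Finset.mem_of_mem_erase h2

theorem KK.dg3 {K : Finset V} (h : KK U E K) {v : V} (hv : v ∈ K) : 3 ≤ dg U E v := by
  have h1 : K.erase v ⊆ U.filter fun w => E v w := by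
    intro u hu
    exact Finset.mem_filter.mpr ⟨h.sub (Finset.mem_of_mem_erase hu),
      h.ad v hv u (Finset.mem_of_mem_erase hu) (Finset.ne_of_mem_erase hu).symm⟩
  have h2 := Finset.card_le_card h1
  rw [Finset.card_erase_of_mem hv, h.c4] at h2
  exact h2

/-- two of four -/
theorem KK.two {K : Finset V} (h : KK U E K) {a b : V} (ha : a ∈ K) (hb : b ∈ K) (hab : a ≠ b) :
    ∃ p q, p ∈ K ∧ q ∈ K ∧ p ≠ q ∧ p ≠ a ∧ p ≠ b ∧ q ≠ a ∧ q ≠ b ∧ ∀ v ∈ K, v = a ∨ v = b ∨ v = p ∨ v = q := by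
  have h1 : ((K.erase a).erase b).card = 2 := by
    rw [Finset.card_erase_of_mem (Finset.mem_erase.mpr ⟨hab.symm, hb⟩), Finset.card_erase_of_mem ha, h.c4]
  obtain ⟨p, q, hpq, h2⟩ := Finset.card_eq_two.mp h1
  have h3 : ∀ v, v ∈ (K.erase a).erase b ↔ v = p ∨ v = q := by
    intro v
    rw [h2, Finset.mem_insert, Finset.mem_singleton]
  have hp := (h3 p).mpr (Or.inl rfl)
  have hq := (h3 q).mpr (Or.inr rfl)
  rw [Finset.mem_erase, Finset.mem_erase] at hp hq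
  refine ⟨p, q, hp.2.2, hq.2.2, hpq, hp.2.1, hp.1, hq.2.1, hq.1, fun v hv => ?_⟩
  by_cases hva : v = a
  · exact Or.inl hva
  · by_cases hvb : v = b
    · exact Or.inr (Or.inl hvb)
    · exact Or.inr (Or.inr ((h3 v).mp (Finset.mem_erase.mpr ⟨hvb, Finset.mem_erase.mpr ⟨hva, hv⟩⟩)))

/-! ### the hypotheses -/

/-- the hypotheses of the token version of Brooks' theorem -/
structure VL (U : Finset V) (E : V → V → Prop) (X : Finset V) (y z : V → V) : Prop where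
  sym : ∀ u v, E u v → E v u
  irr : ∀ u, ¬ E u u
  sub : X ⊆ U
  tk : ∀ x ∈ X, y x ∈ U ∧ z x ∈ U ∧ y x ∉ X ∧ z x ∉ X ∧ E x (y x) ∧ E x (z x) ∧ E (y x) (z x)
  dis : ∀ x ∈ X, ∀ x' ∈ X, x ≠ x' → y x ≠ y x' ∧ y x ≠ z x' ∧ z x ≠ z x'
  d4 : ∀ x ∈ X, dg U E x ≤ 4
  d3 : ∀ v ∈ U, v ∉ X → dg U E v ≤ 3
  cn : ∀ x ∈ X, ∀ o ∈ U, E (y x) o → E (z x) o → o = x
  k4 : NoK4 U E

/-- `a, b` are the two light points of the token of `x` -/
structure Tn (X : Finset V) (y z : V → V) (x a b : V) : Prop where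
  hx : x ∈ X
  or : (a = y x ∧ b = z x) ∨ (a = z x ∧ b = y x)

variable {X X' : Finset V} {y z : V → V} {x a b x' a' b' : V}

theorem Tn.symm (t : Tn X y z x a b) : Tn X y z x b a := ⟨t.hx, by
  rcases t.or with ⟨h1, h2⟩ | ⟨h1, h2⟩
  · exact Or.inr ⟨h2, h1⟩
  · exact Or.inl ⟨h2, h1⟩⟩

theorem tn (hx : x ∈ X) : Tn X y z x (y x) (z x) := ⟨hx, Or.inl ⟨rfl, rfl⟩⟩

/-- everything about a token -/
structure TF (U : Finset V) (E : V → V → Prop) (X : Finset V) (x a b : V) : Prop where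
  hx : x ∈ X
  xU : x ∈ U
  aU : a ∈ U
  bU : b ∈ U
  aX : a ∉ X
  bX : b ∉ X
  xa : E x a
  xb : E x b
  ab : E a b
  ax : E a x
  bx : E b x
  ba : E b a
  nxa : x ≠ a
  nxb : x ≠ b
  nab : a ≠ b
  da : dg U E a ≤ 3
  db : dg U E b ≤ 3
  dx : dg U E x ≤ 4
  cn : ∀ o ∈ U, E a o → E b o → o = x

theorem VL.tf (h : VL U E X y z) (t : Tn X y z x a b) : TF U E X x a b := by
  obtain ⟨h1, h2, h3, h4, h5, h6, h7⟩ := h.tk x t.hx
  have ne : ∀ {u v : V}, E u v → u ≠ v := by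
    rintro u v h8 rfl
    exact h.irr u h8
  rcases t.or with ⟨rfl, rfl⟩ | ⟨rfl, rfl⟩
  · exact ⟨t.hx, h.sub t.hx, h1, h2, h3, h4, h5, h6, h7, h.sym _ _ h5, h.sym _ _ h6, h.sym _ _ h7, ne h5, ne h6, ne h7,
      h.d3 _ h1 h3, h.d3 _ h2 h4, h.d4 _ t.hx, h.cn x t.hx⟩
  · exact ⟨t.hx, h.sub t.hx, h2, h1, h4, h3, h6, h5, h.sym _ _ h7, h.sym _ _ h6, h.sym _ _ h5, h7, ne h6, ne h5,
      (ne h7).symm, h.d3 _ h2 h4, h.d3 _ h1 h3, h.d4 _ t.hx, fun o ho h8 h9 => h.cn x t.hx o ho h9 h8⟩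

theorem VL.ne (h : VL U E X y z) (t : Tn X y z x a b) (t' : Tn X y z x' a' b') (hne : x ≠ x') :
    a ≠ a' ∧ a ≠ b' ∧ b ≠ a' ∧ b ≠ b' := by
  obtain ⟨h1, h2, h3⟩ := h.dis x t.hx x' t'.hx hne
  obtain ⟨-, h5, -⟩ := h.dis x' t'.hx x t.hx hne.symm
  rcases t.or with ⟨rfl, rfl⟩ | ⟨rfl, rfl⟩ <;> rcases t'.or with ⟨rfl, rfl⟩ | ⟨rfl, rfl⟩
  · exact ⟨h1, h2, h5.symm, h3⟩
  · exact ⟨h2, h1, h3, h5.symm⟩
  · exact ⟨h5.symm, h3, h1, h2⟩
  · exact ⟨h3, h5.symm, h2, h1⟩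

/-- restriction to a smaller set of points -/
theorem VL.restr (h : VL U E X y z) (hU : U' ⊆ U) (hX : X' ⊆ X) (h1 : X' ⊆ U')
    (h2 : ∀ x ∈ X', y x ∈ U' ∧ z x ∈ U') (h3 : ∀ v ∈ U', v ∈ X → v ∉ X' → dg U' E v ≤ 3) : VL U' E X' y z where
  sym := h.sym
  irr := h.irr
  sub := h1
  tk x hx := by
    obtain ⟨-, -, g3, g4, g5, g6, g7⟩ := h.tk x (hX hx)
    exact ⟨(h2 x hx).1, (h2 x hx).2, fun g => g3 (hX g), fun g => g4 (hX g), g5, g6, g7⟩
  dis x hx x' hx' := h.dis x (hX hx) x' (hX hx')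
  d4 x hx := le_trans (dg_mono hU fun _ _ g => g) (h.d4 x (hX hx))
  d3 v hv hvX := by
    by_cases hvX' : v ∈ X
    · exact h3 v hv hvX' hvX
    · exact le_trans (dg_mono hU fun _ _ g => g) (h.d3 v (hU hv) hvX')
  cn x hx o ho := h.cn x (hX hx) o (hU ho)
  k4 := by
    rintro ⟨p, hp, q, hq, r, hr, s, hs, g⟩
    exact h.k4 ⟨p, hU hp, q, hU hq, r, hU hr, s, hU hs, g⟩

/-! ### extension of colourings -/

/-- proper -/
def Pr (U : Finset V) (E : V → V → Prop) (c : V → Fin 3) : Prop := ∀ u ∈ U, ∀ v ∈ U, E u v → c u ≠ c v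

theorem col_ext (hs : ∀ u v, E u v → E v u) {R : V → Prop} {c : V → Fin 3}
    (h1 : ∀ u ∈ U, ¬ R u → ∀ v ∈ U, ¬ R v → E u v → c u ≠ c v)
    (h2 : ∀ u ∈ U, R u → ∀ v ∈ U, E u v → c u ≠ c v) : Pr U E c := by
  intro u hu v hv h
  by_cases hR : R u
  · exact h2 u hu hR v hv h
  · by_cases hR' : R v
    · exact (h2 v hv hR' u hu (hs u v h)).symm
    · exact h1 u hu hR v hv hR' h

/-- EXT: extension to the light points of a token -/
theorem ext_tok (hs : ∀ u v, E u v → E v u) {a b x a' b' : V} (hab : a ≠ b)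
    (hxa : x ≠ a) (hxb : x ≠ b) (haa : a' ≠ a) (hab' : a' ≠ b) (hba : b' ≠ a) (hbb : b' ≠ b)
    (na : ∀ w ∈ U, E a w → w = x ∨ w = b ∨ w = a') (nb : ∀ w ∈ U, E b w → w = x ∨ w = a ∨ w = b')
    {c : V → Fin 3} (hc : ∀ u ∈ U, u ≠ a → u ≠ b → ∀ v ∈ U, v ≠ a → v ≠ b → E u v → c u ≠ c v)
    (h : ¬ (c a' = c b' ∧ c b' ≠ c x)) : Col3 U E := by
  obtain ⟨s, t, h1, h2, h3, h4, h5⟩ := fin3_b _ _ _ h
  refine ⟨fun v => if v = a then s else if v = b then t else c v, ?_⟩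
  apply col_ext hs (R := fun v => v = a ∨ v = b)
  · intro u hu hRu v hv hRv huv
    push Not at hRu hRv
    rw [if_neg hRu.1, if_neg hRu.2, if_neg hRv.1, if_neg hRv.2]
    exact hc u hu hRu.1 hRu.2 v hv hRv.1 hRv.2 huv
  · rintro u hu (rfl | rfl) v hv huv
    · rcases na v hv huv with rfl | rfl | rfl
      · simp [hxa, hxb, h2]
      · simp [hab.symm, h1]
      · simp [haa, hab', h4]
    · rcases nb v hv huv with rfl | rfl | rfl
      · simp [hxa, hxb, hab.symm, h3]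
      · simp [hab.symm, h1.symm]
      · simp [hba, hbb, hab.symm, h5]

/-- extension to the light points of the tokens of a loop -/
theorem ext_loop (hs : ∀ u v, E u v → E v u) {a b x a₂ b₂ x₂ o : V}
    (n1 : a ≠ b) (n2 : a ≠ a₂) (n3 : a ≠ b₂) (n4 : b ≠ a₂) (n5 : b ≠ b₂) (n6 : a₂ ≠ b₂)
    (hx : x ≠ a ∧ x ≠ b ∧ x ≠ a₂ ∧ x ≠ b₂) (hx₂ : x₂ ≠ a ∧ x₂ ≠ b ∧ x₂ ≠ a₂ ∧ x₂ ≠ b₂)
    (ho : o ≠ a ∧ o ≠ b ∧ o ≠ a₂ ∧ o ≠ b₂)
    (na : ∀ w ∈ U, E a w → w = x ∨ w = b ∨ w = o) (nb : ∀ w ∈ U, E b w → w = x ∨ w = a ∨ w = b₂)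
    (na₂ : ∀ w ∈ U, E a₂ w → w = x₂ ∨ w = b₂ ∨ w = o) (nb₂ : ∀ w ∈ U, E b₂ w → w = x₂ ∨ w = a₂ ∨ w = b)
    {c : V → Fin 3}
    (hc : ∀ u ∈ U, (u ≠ a ∧ u ≠ b ∧ u ≠ a₂ ∧ u ≠ b₂) → ∀ v ∈ U, (v ≠ a ∧ v ≠ b ∧ v ≠ a₂ ∧ v ≠ b₂) → E u v → c u ≠ c v)
    (h : c o = c x ∨ c o = c x₂) : Col3 U E := by
  obtain ⟨s, t, ⟨h1, h2, h3, h4⟩, s', t', h5, h6, h7, h8, h9⟩ := fin3_c _ _ _ h
  obtain ⟨x1, x2, x3, x4⟩ := hx
  obtain ⟨y1, y2, y3, y4⟩ := hx₂
  obtain ⟨o1, o2, o3, o4⟩ := ho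
  refine ⟨fun v => if v = a then s else if v = b then t else if v = a₂ then s' else if v = b₂ then t' else c v, ?_⟩
  apply col_ext hs (R := fun v => v = a ∨ v = b ∨ v = a₂ ∨ v = b₂)
  · intro u hu hRu v hv hRv huv
    push Not at hRu hRv
    rw [if_neg hRu.1, if_neg hRu.2.1, if_neg hRu.2.2.1, if_neg hRu.2.2.2, if_neg hRv.1, if_neg hRv.2.1,
      if_neg hRv.2.2.1, if_neg hRv.2.2.2]
    exact hc u hu hRu v hv hRv huv
  · rintro u hu (rfl | rfl | rfl | rfl) v hv huv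
    · rcases na v hv huv with rfl | rfl | rfl
      · simp [x1, x2, x3, x4, h1]
      · simp [n1.symm, h2]
      · simp [o1, o2, o3, o4, h3]
    · rcases nb v hv huv with rfl | rfl | rfl
      · simp [x1, x2, x3, x4, n1.symm, h4]
      · simp [n1.symm, h2.symm]
      · simp [n1.symm, n3.symm, n5.symm, n6.symm, h5]
    · rcases na₂ v hv huv with rfl | rfl | rfl
      · simp [y1, y2, y3, y4, n2.symm, n4.symm, h6]
      · simp [n2.symm, n4.symm, n3.symm, n5.symm, n6.symm, h7]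
      · simp [o1, o2, o3, o4, n2.symm, n4.symm, h8]
    · rcases nb₂ v hv huv with rfl | rfl | rfl
      · simp [y1, y2, y3, y4, n3.symm, n5.symm, n6.symm, h9]
      · simp [n2.symm, n4.symm, n3.symm, n5.symm, n6.symm, h7.symm]
      · simp [n1.symm, n3.symm, n5.symm, n6.symm, h5.symm]

end

end Pool.Agent.Helper91.Inj
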