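import Pool.Agent.Helper91.Inj.G2a

/-!
G2, part 2: the loops.
-/

set_option autoImplicit false

namespace Pool.Agent.Helper91.Inj

open Classical Pool.Agent.Helper65.Inj

section

variable {V : Type} {U U' : Finset V} {E E' : V → V → Prop} {X X' : Finset V} {y z : V → V}

/-- the induction hypothesis -/
def IHn (V : Type) (n : ℕ) : Prop := ∀ (U : Finset V) (E : V → V → Prop) (X : Finset V) (y z : V → V), U.card < n →
  VL U E X y z → Col3 U E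

theorem card_sub (hU : U' ⊆ U) {a : V} (ha : a ∈ U) (ha' : a ∉ U') : U'.card < U.card := by
  apply Finset.card_lt_card
  exact ⟨hU, fun h => ha' (h ha)⟩

theorem VL.nk (h : VL U E X y z) (K : Finset V) : ¬ KK U E K := (noK4_iff h.sym h.irr).mp h.k4 K

theorem VL.nn (h : VL U E X y z) {u v : V} (h1 : E u v) : u ≠ v := by
  rintro rfl
  exact h.irr u h1

theorem tok_eq {x a b p q : V} (t : Tn X y z x a b) (t' : Tn X y z x p q) : (p = a ∧ q = b) ∨ (p = b ∧ q = a) := by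
  rcases t.or with ⟨rfl, rfl⟩ | ⟨rfl, rfl⟩ <;> rcases t'.or with ⟨rfl, rfl⟩ | ⟨rfl, rfl⟩
  · exact Or.inl ⟨rfl, rfl⟩
  · exact Or.inr ⟨rfl, rfl⟩
  · exact Or.inr ⟨rfl, rfl⟩
  · exact Or.inl ⟨rfl, rfl⟩

/-- a light point without outer neighbour -/
theorem case_zero (h : VL U E X y z) (ih : IHn V U.card) {x a b : V} (t : Tn X y z x a b)
    (hn : ∀ w ∈ U, E a w → w = x ∨ w = b) : Col3 U E := by
  have f := h.tf t
  have h1 : VL (U.erase a) E (X.erase x) y z := by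
    refine h.restr (Finset.erase_subset _ _) (Finset.erase_subset _ _) ?_ ?_ ?_
    · intro v hv
      rw [Finset.mem_erase] at hv ⊢
      exact ⟨fun h1 => f.aX (h1 ▸ hv.2), h.sub hv.2⟩
    · intro x' hx'
      rw [Finset.mem_erase] at hx'
      have f' := h.tf (tn hx'.2)
      obtain ⟨g1, g2, g3, g4⟩ := h.ne t (tn hx'.2) hx'.1.symm
      exact ⟨Finset.mem_erase.mpr ⟨g1.symm, f'.aU⟩, Finset.mem_erase.mpr ⟨g2.symm, f'.bU⟩⟩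
    · intro v hv hvX hvX'
      have h2 : v = x := by
        by_contra hne
        exact hvX' (Finset.mem_erase.mpr ⟨hne, hvX⟩)
      subst h2
      have h3 := dg_erase f.aU f.xa
      have h4 := f.dx
      omega
  obtain ⟨c, hc⟩ := ih _ _ _ _ _ (Finset.card_erase_lt_of_mem f.aU) h1
  obtain ⟨s, hs1, hs2⟩ := fin3_a (c x) (c b)
  refine ⟨fun v => if v = a then s else c v, ?_⟩
  apply col_ext h.sym (R := fun v => v = a)
  · intro u hu hRu v hv hRv huv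
    rw [if_neg hRu, if_neg hRv]
    exact hc u (Finset.mem_erase.mpr ⟨hRu, hu⟩) v (Finset.mem_erase.mpr ⟨hRv, hv⟩) huv
  · rintro u hu rfl v hv huv
    rcases hn v hv huv with rfl | rfl
    · simp [f.nxa, hs1]
    · simp [f.nab.symm, hs2]

/-- a loop -/
structure Lp (U : Finset V) (E : V → V → Prop) (X : Finset V) (y z : V → V) (x a b x₂ a₂ b₂ o : V) : Prop where
  t : Tn X y z x a b
  t₂ : Tn X y z x₂ a₂ b₂
  ne : x ≠ x₂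
  oU : o ∈ U
  bb : E b b₂
  ao : E a o
  oa : E o a₂
  ox : o ≠ x
  ox₂ : o ≠ x₂

variable {x a b x₂ a₂ b₂ o : V}

/-- facts about a loop -/
structure LF (U : Finset V) (E : V → V → Prop) (X : Finset V) (x a b x₂ a₂ b₂ o : V) : Prop where
  f : TF U E X x a b
  f₂ : TF U E X x₂ a₂ b₂
  n2 : a ≠ a₂
  n3 : a ≠ b₂
  n4 : b ≠ a₂
  n5 : b ≠ b₂
  xa : x ≠ a₂
  xb : x ≠ b₂
  xa' : x₂ ≠ a
  xb' : x₂ ≠ b
  oa : o ≠ a
  ob : o ≠ b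
  oa₂ : o ≠ a₂
  ob₂ : o ≠ b₂
  na : ∀ w ∈ U, E a w → w = x ∨ w = b ∨ w = o
  nb : ∀ w ∈ U, E b w → w = x ∨ w = a ∨ w = b₂
  na₂ : ∀ w ∈ U, E a₂ w → w = x₂ ∨ w = b₂ ∨ w = o
  nb₂ : ∀ w ∈ U, E b₂ w → w = x₂ ∨ w = a₂ ∨ w = b

theorem Lp.lf (h : VL U E X y z) (l : Lp U E X y z x a b x₂ a₂ b₂ o) : LF U E X x a b x₂ a₂ b₂ o := by
  have f := h.tf l.t
  have f₂ := h.tf l.t₂
  obtain ⟨n2, n3, n4, n5⟩ := h.ne l.t l.t₂ l.ne
  have xa : x ≠ a₂ := fun h1 => f₂.aX (h1 ▸ f.hx)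
  have xb : x ≠ b₂ := fun h1 => f₂.bX (h1 ▸ f.hx)
  have xa' : x₂ ≠ a := fun h1 => f.aX (h1 ▸ f₂.hx)
  have xb' : x₂ ≠ b := fun h1 => f.bX (h1 ▸ f₂.hx)
  have nb : ∀ w ∈ U, E b w → w = x ∨ w = a ∨ w = b₂ := fun w hw h1 =>
    nb3 f.db f.xU f.aU f₂.bU f.bx f.ba l.bb f.nxa xb n3 hw h1
  have nb₂ : ∀ w ∈ U, E b₂ w → w = x₂ ∨ w = a₂ ∨ w = b := fun w hw h1 =>
    nb3 f₂.db f₂.xU f₂.aU f.bU f₂.bx f₂.ba (h.sym _ _ l.bb) f₂.nxa xb' n4.symm hw h1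
  have oa : o ≠ a := (h.nn l.ao).symm
  have oa₂ : o ≠ a₂ := h.nn l.oa
  have ob : o ≠ b := by
    intro h1
    rcases nb a₂ f₂.aU (h1 ▸ l.oa) with h2 | h2 | h2
    · exact xa h2.symm
    · exact n2 h2.symm
    · exact f₂.nab h2
  have ob₂ : o ≠ b₂ := by
    intro h1
    rcases nb₂ a f.aU (h.sym _ _ (h1 ▸ l.ao)) with h2 | h2 | h2
    · exact xa' h2.symm
    · exact n2 h2
    · exact f.nab h2
  exact ⟨f, f₂, n2, n3, n4, n5, xa, xb, xa', xb', oa, ob, oa₂, ob₂,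
    fun w hw h1 => nb3 f.da f.xU f.bU l.oU f.ax f.ab l.ao f.nxb l.ox.symm ob.symm hw h1, nb,
    fun w hw h1 => nb3 f₂.da f₂.xU f₂.bU l.oU f₂.ax f₂.ab (h.sym _ _ l.oa) f₂.nxb l.ox₂.symm ob₂.symm hw h1, nb₂⟩

theorem LF.ext (hs : ∀ u v, E u v → E v u) (L : LF U E X x a b x₂ a₂ b₂ o) {c : V → Fin 3}
    (hc : ∀ u ∈ U, (u ≠ a ∧ u ≠ b ∧ u ≠ a₂ ∧ u ≠ b₂) → ∀ v ∈ U, (v ≠ a ∧ v ≠ b ∧ v ≠ a₂ ∧ v ≠ b₂) → E u v → c u ≠ c v)
    (h : c o = c x ∨ c o = c x₂) : Col3 U E :=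
  ext_loop hs L.f.nab L.n2 L.n3 L.n4 L.n5 L.f₂.nab ⟨L.f.nxa, L.f.nxb, L.xa, L.xb⟩ ⟨L.xa', L.xb', L.f₂.nxa, L.f₂.nxb⟩
    ⟨L.oa, L.ob, L.oa₂, L.ob₂⟩ L.na L.nb L.na₂ L.nb₂ hc h

/-- the point `o` is in no token if it is light -/
theorem Lp.otok (h : VL U E X y z) (l : Lp U E X y z x a b x₂ a₂ b₂ o) (hoX : o ∉ X) {x' p q : V}
    (t' : Tn X y z x' p q) : p ≠ o := by
  have L := l.lf h
  rintro rfl
  by_cases h1 : x' = x
  · subst h1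
    rcases tok_eq l.t t' with ⟨h2, -⟩ | ⟨h2, -⟩
    · exact L.oa h2
    · exact L.ob h2
  · by_cases h2 : x' = x₂
    · subst h2
      rcases tok_eq l.t₂ t' with ⟨h3, -⟩ | ⟨h3, -⟩
      · exact L.oa₂ h3
      · exact L.ob₂ h3
    · have f' := h.tf t'
      obtain ⟨-, g2, -, -⟩ := h.ne l.t t' (fun h3 => h1 h3.symm)
      obtain ⟨-, g2', -, -⟩ := h.ne l.t₂ t' (fun h3 => h2 h3.symm)
      have h3 : a ≠ x' := fun h3 => L.f.aX (h3 ▸ f'.hx)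
      have h4 : a₂ ≠ x' := fun h3 => L.f₂.aX (h3 ▸ f'.hx)
      rcases nb3 f'.da L.f.aU L.f₂.aU f'.xU (h.sym _ _ l.ao) l.oa f'.ax L.n2 h3 h4 f'.bU f'.ab with h5 | h5 | h5
      · exact g2 h5.symm
      · exact g2' h5.symm
      · exact f'.nxb h5.symm

/-- colour of `o` -/
theorem Lp.oc (h : VL U E X y z) (l : Lp U E X y z x a b x₂ a₂ b₂ o) (hoX : o ∉ X) {c : V → Fin 3} {α β : Fin 3}
    (hαβ : α ≠ β) : ∃ ω : Fin 3, (ω = α ∨ ω = β) ∧ ∀ w ∈ U, E o w → w ≠ a → w ≠ a₂ → c w ≠ ω := by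
  have L := l.lf h
  by_cases hex : ∃ n ∈ U, E o n ∧ n ≠ a ∧ n ≠ a₂
  · obtain ⟨n, hn, hon, hna, hna₂⟩ := hex
    obtain ⟨ω, h1, h2⟩ := fin3_d α β (c n) hαβ
    refine ⟨ω, h1, fun w hw how hwa hwa₂ => ?_⟩
    rcases nb3 (h.d3 o l.oU hoX) L.f.aU L.f₂.aU hn (h.sym _ _ l.ao) l.oa hon L.n2 hna.symm hna₂.symm hw how with
      h3 | h3 | h3
    · exact absurd h3 hwa
    · exact absurd h3 hwa₂
    · rw [h3]
      exact h2.symm
  · push Not at hex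
    exact ⟨α, Or.inl rfl, fun w hw how hwa hwa₂ => absurd (hex w hw how hwa) hwa₂⟩

end

end Pool.Agent.Helper91.Inj
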