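import Pool.Agent.Helper91.Inj.G2b

/-!
G2, part 3: loops over a light point.
-/

set_option autoImplicit false

namespace Pool.Agent.Helper91.Inj

open Classical Pool.Agent.Helper65.Inj

section

variable {V : Type} {U : Finset V} {E : V → V → Prop} {X : Finset V} {y z : V → V} {x a b x₂ a₂ b₂ o : V}

/-- the graph with the edge `u v` added -/
def ade (E : V → V → Prop) (p q : V) : V → V → Prop := fun u v => E u v ∨ (u = p ∧ v = q) ∨ (u = q ∧ v = p)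

theorem ade_symm (hs : ∀ u v, E u v → E v u) {p q : V} : ∀ u v, ade E p q u v → ade E p q v u := by
  rintro u v (h | ⟨h1, h2⟩ | ⟨h1, h2⟩)
  · exact Or.inl (hs _ _ h)
  · exact Or.inr (Or.inr ⟨h2, h1⟩)
  · exact Or.inr (Or.inl ⟨h2, h1⟩)

theorem ade_irr (hi : ∀ u, ¬ E u u) {p q : V} (hpq : p ≠ q) : ∀ u, ¬ ade E p q u u := by
  rintro u (h | ⟨h1, h2⟩ | ⟨h1, h2⟩)
  · exact hi u h
  · exact hpq (h1.symm.trans h2)
  · exact hpq (h2.symm.trans h1)

theorem ade_l {p q u v : V} (h : ade E p q u v) (h1 : u ≠ p) (h2 : u ≠ q) : E u v := by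
  rcases h with h | ⟨h, -⟩ | ⟨h, -⟩
  · exact h
  · exact absurd h h1
  · exact absurd h h2

theorem ade_r {p q u v : V} (h : ade E p q u v) (h1 : v ≠ p) (h2 : v ≠ q) : E u v := by
  rcases h with h | ⟨-, h⟩ | ⟨-, h⟩
  · exact h
  · exact absurd h h2
  · exact absurd h h1

/-- a `K4` of the graph with one more edge contains both ends of this edge -/
theorem ade_K {U' : Finset V} (hU : U' ⊆ U) (h : VL U E X y z) {p q : V} {K : Finset V} (hK : KK U' (ade E p q) K) :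
    p ∈ K ∧ q ∈ K ∧ ¬ E p q := by
  have key : (p ∉ K ∨ q ∉ K ∨ E p q) → False := by
    intro h1
    apply h.nk K
    refine ⟨fun u hu => hU (hK.sub hu), hK.c4, fun u hu v hv huv => ?_⟩
    rcases hK.ad u hu v hv huv with h2 | ⟨h2, h3⟩ | ⟨h2, h3⟩
    · exact h2
    · subst h2
      subst h3
      rcases h1 with h1 | h1 | h1
      · exact absurd hu h1
      · exact absurd hv h1
      · exact h1
    · subst h2
      subst h3
      rcases h1 with h1 | h1 | h1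
      · exact absurd hv h1
      · exact absurd hu h1
      · exact h.sym _ _ h1
  refine ⟨?_, ?_, ?_⟩
  · by_contra h1
    exact key (Or.inl h1)
  · by_contra h1
    exact key (Or.inr (Or.inl h1))
  · intro h1
    exact key (Or.inr (Or.inr h1))

/-- the set of points left -/
noncomputable def U1 (U : Finset V) (a b a₂ b₂ o : V) : Finset V :=
  U.filter fun v => v ≠ a ∧ v ≠ b ∧ v ≠ a₂ ∧ v ≠ b₂ ∧ v ≠ o

theorem mem_U1 {v : V} : v ∈ U1 U a b a₂ b₂ o ↔ v ∈ U ∧ v ≠ a ∧ v ≠ b ∧ v ≠ a₂ ∧ v ≠ b₂ ∧ v ≠ o := by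
  unfold U1
  rw [Finset.mem_filter]

noncomputable def X1 (X : Finset V) (x x₂ : V) : Finset V := X.filter fun v => v ≠ x ∧ v ≠ x₂

theorem mem_X1 {v : V} : v ∈ X1 X x x₂ ↔ v ∈ X ∧ v ≠ x ∧ v ≠ x₂ := by
  unfold X1
  rw [Finset.mem_filter]

/-- no `K4` is created -/
theorem case1a_n (h : VL U E X y z) (ih : IHn V U.card) (l : Lp U E X y z x a b x₂ a₂ b₂ o) (hoX : o ∉ X)
    (hK : NoK4 (U1 U a b a₂ b₂ o) (ade E x x₂)) : Col3 U E := by
  have L := l.lf h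
  have f := L.f
  have f₂ := L.f₂
  have hU : U1 U a b a₂ b₂ o ⊆ U := fun v hv => (mem_U1.mp hv).1
  have hxU : x ∈ U1 U a b a₂ b₂ o := mem_U1.mpr ⟨f.xU, f.nxa, f.nxb, L.xa, L.xb, l.ox.symm⟩
  have hx₂U : x₂ ∈ U1 U a b a₂ b₂ o := mem_U1.mpr ⟨f₂.xU, L.xa', L.xb', f₂.nxa, f₂.nxb, l.ox₂.symm⟩
  -- degree of the ends of the new edge
  have hdeg : ∀ {p q s t : V}, p ∈ U → dg U E p ≤ 4 → s ∈ U → t ∈ U → E p s → E p t → s ≠ t →
      s ∉ U1 U a b a₂ b₂ o → t ∉ U1 U a b a₂ b₂ o → (∀ w, ade E x x₂ p w → E p w ∨ w = q) →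
      dg (U1 U a b a₂ b₂ o) (ade E x x₂) p ≤ 3 := by
    intro p q s t hp h4 hs ht hps hpt hst hs' ht' hq
    have h1 := dg_lt2 hU hs hs' hps ht ht' hpt hst
    have h2 : dg (U1 U a b a₂ b₂ o) (ade E x x₂) p ≤ dg (U1 U a b a₂ b₂ o) E p + 1 := by
      unfold dg
      have h3 : (U1 U a b a₂ b₂ o).filter (fun w => ade E x x₂ p w) ⊆
          insert q ((U1 U a b a₂ b₂ o).filter fun w => E p w) := by
        intro w hw
        rw [Finset.mem_filter] at hw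
        rw [Finset.mem_insert, Finset.mem_filter]
        rcases hq w hw.2 with h4 | h4
        · exact Or.inr ⟨hw.1, h4⟩
        · exact Or.inl h4
      exact le_trans (Finset.card_le_card h3) (Finset.card_insert_le _ _)
    omega
  have hVL : VL (U1 U a b a₂ b₂ o) (ade E x x₂) (X1 X x x₂) y z := {
    sym := ade_symm h.sym
    irr := ade_irr h.irr l.ne
    sub := by
      intro v hv
      rw [mem_X1] at hv
      exact mem_U1.mpr ⟨h.sub hv.1, fun h1 => f.aX (h1 ▸ hv.1), fun h1 => f.bX (h1 ▸ hv.1), fun h1 => f₂.aX (h1 ▸ hv.1),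
        fun h1 => f₂.bX (h1 ▸ hv.1), fun h1 => hoX (h1 ▸ hv.1)⟩
    tk := by
      intro x' hx'
      rw [mem_X1] at hx'
      obtain ⟨hx', h1, h2⟩ := hx'
      have f' := h.tf (tn hx')
      obtain ⟨g1, g2, g3, g4⟩ := h.ne l.t (tn hx') h1.symm
      obtain ⟨k1, k2, k3, k4⟩ := h.ne l.t₂ (tn hx') h2.symm
      exact ⟨mem_U1.mpr ⟨f'.aU, g1.symm, g3.symm, k1.symm, k3.symm, l.otok h hoX (tn hx')⟩,
        mem_U1.mpr ⟨f'.bU, g2.symm, g4.symm, k2.symm, k4.symm, l.otok h hoX (tn hx').symm⟩,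
        fun h3 => f'.aX (mem_X1.mp h3).1, fun h3 => f'.bX (mem_X1.mp h3).1, Or.inl f'.xa, Or.inl f'.xb, Or.inl f'.ab⟩
    dis := fun x' hx' x'' hx'' => h.dis x' (mem_X1.mp hx').1 x'' (mem_X1.mp hx'').1
    d4 := by
      intro x' hx'
      rw [mem_X1] at hx'
      exact le_trans (dg_mono hU fun w _ h1 => ade_l h1 hx'.2.1 hx'.2.2) (h.d4 x' hx'.1)
    d3 := by
      intro v hv hvX
      by_cases h1 : v = x
      · subst h1
        refine hdeg (q := x₂) f.xU f.dx f.aU f.bU f.xa f.xb f.nab (fun h2 => (mem_U1.mp h2).2.1 rfl)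
          (fun h2 => (mem_U1.mp h2).2.2.1 rfl) ?_
        rintro w (h2 | ⟨-, h2⟩ | ⟨h2, -⟩)
        · exact Or.inl h2
        · exact Or.inr h2
        · exact absurd h2 l.ne
      · by_cases h2 : v = x₂
        · subst h2
          refine hdeg (q := x) f₂.xU f₂.dx f₂.aU f₂.bU f₂.xa f₂.xb f₂.nab (fun h2 => (mem_U1.mp h2).2.2.2.1 rfl)
            (fun h2 => (mem_U1.mp h2).2.2.2.2.1 rfl) ?_
          rintro w (h2 | ⟨h2, -⟩ | ⟨-, h2⟩)
          · exact Or.inl h2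
          · exact absurd h2.symm l.ne
          · exact Or.inr h2
        · have h3 : v ∉ X := fun h3 => hvX (mem_X1.mpr ⟨h3, h1, h2⟩)
          exact le_trans (dg_mono hU fun w _ h4 => ade_l h4 h1 h2) (h.d3 v (hU hv) h3)
    cn := by
      intro x' hx' w hw h1 h2
      rw [mem_X1] at hx'
      have f' := h.tf (tn hx'.1)
      refine f'.cn w (hU hw) (ade_l h1 ?_ ?_) (ade_l h2 ?_ ?_)
      · exact fun h3 => f'.aX (h3 ▸ f.hx)
      · exact fun h3 => f'.aX (h3 ▸ f₂.hx)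
      · exact fun h3 => f'.bX (h3 ▸ f.hx)
      · exact fun h3 => f'.bX (h3 ▸ f₂.hx)
    k4 := hK }
  obtain ⟨c, hc⟩ := ih _ _ _ _ _ (card_sub hU f.aU fun h1 => (mem_U1.mp h1).2.1 rfl) hVL
  have hcx : c x ≠ c x₂ := hc x hxU x₂ hx₂U (Or.inr (Or.inl ⟨rfl, rfl⟩))
  obtain ⟨ω, hω, hω2⟩ := l.oc h hoX (c := c) hcx
  refine L.ext h.sym (c := fun v => if v = o then ω else c v) ?_ ?_
  · intro u hu hu' v hv hv' huv
    beta_reduce
    by_cases huo : u = o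
    · subst huo
      have hvo : v ≠ u := (h.nn huv).symm
      rw [if_pos rfl, if_neg hvo]
      exact (hω2 v hv huv hv'.1 hv'.2.2.1).symm
    · by_cases hvo : v = o
      · subst hvo
        rw [if_neg huo, if_pos rfl]
        exact hω2 u hu (h.sym _ _ huv) hu'.1 hu'.2.2.1
      · rw [if_neg huo, if_neg hvo]
        exact hc u (mem_U1.mpr ⟨hu, hu'.1, hu'.2.1, hu'.2.2.1, hu'.2.2.2, huo⟩) v
          (mem_U1.mpr ⟨hv, hv'.1, hv'.2.1, hv'.2.2.1, hv'.2.2.2, hvo⟩) (Or.inl huv)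
  · beta_reduce
    rw [if_pos rfl, if_neg l.ox.symm, if_neg l.ox₂.symm]
    exact hω

/-- a `K4` is created -/
theorem case1a_k (h : VL U E X y z) (ih : IHn V U.card) (l : Lp U E X y z x a b x₂ a₂ b₂ o) (hoX : o ∉ X)
    {K : Finset V} (hK : KK (U1 U a b a₂ b₂ o) (ade E x x₂) K) : Col3 U E := by
  have L := l.lf h
  have f := L.f
  have f₂ := L.f₂
  have hU : U1 U a b a₂ b₂ o ⊆ U := fun v hv => (mem_U1.mp hv).1
  obtain ⟨hxK, hx₂K, hxx⟩ := ade_K hU h hK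
  obtain ⟨p, q, hp, hq, hpq, hpx, hpx₂, hqx, hqx₂, hall⟩ := hK.two hxK hx₂K l.ne
  have exp : E x p := ade_r (hK.ad x hxK p hp hpx.symm) hpx hpx₂
  have exq : E x q := ade_r (hK.ad x hxK q hq hqx.symm) hqx hqx₂
  have exp₂ : E x₂ p := ade_r (hK.ad x₂ hx₂K p hp hpx₂.symm) hpx hpx₂
  have exq₂ : E x₂ q := ade_r (hK.ad x₂ hx₂K q hq hqx₂.symm) hqx hqx₂
  have epq : E p q := ade_r (hK.ad p hp q hq hpq) hqx hqx₂
  obtain ⟨hpU, pa, pb, pa₂, pb₂, po⟩ := mem_U1.mp (hK.sub hp)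
  obtain ⟨hqU, qa, qb, qa₂, qb₂, qo⟩ := mem_U1.mp (hK.sub hq)
  -- `p` and `q` are light
  have light : ∀ {p q : V}, p ∈ U → q ∈ U → p ≠ q → p ≠ x → p ≠ x₂ → q ≠ x → q ≠ x₂ → E x p → E x q → E x₂ p →
      E x₂ q → E p q → p ∉ X := by
    intro p q hpU hqU hpq hpx hpx₂ hqx hqx₂ exp exq exp₂ exq₂ epq hpX
    have fp := h.tf (tn hpX)
    have key : ∀ {s t : V}, TF U E X p s t → q = s → False := by
      rintro s t fs rfl
      have h1 : x ≠ p := hpx.symm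
      have h2 : x₂ ≠ p := hpx₂.symm
      rcases nb3 fs.da f.xU f₂.xU hpU (h.sym _ _ exq) (h.sym _ _ exq₂) fs.ax l.ne h1 h2 fs.bU fs.ab with h3 | h3 | h3
      · exact fs.bX (h3 ▸ f.hx)
      · exact fs.bX (h3 ▸ f₂.hx)
      · exact fs.nxb h3.symm
    have hqs : q ≠ y p := fun h1 => key fp h1
    have hqt : q ≠ z p := fun h1 => key (h.tf (tn hpX).symm) h1
    rcases nb4 fp.dx f.xU f₂.xU hqU fp.aU (h.sym _ _ exp) (h.sym _ _ exp₂) epq fp.xa l.ne hqx.symm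
      (fun h1 => fp.aX (h1 ▸ f.hx)) hqx₂.symm (fun h1 => fp.aX (h1 ▸ f₂.hx)) hqs fp.bU fp.xb with h1 | h1 | h1 | h1
    · exact fp.bX (h1 ▸ f.hx)
    · exact fp.bX (h1 ▸ f₂.hx)
    · exact hqt h1.symm
    · exact fp.nab h1.symm
  have hpX : p ∉ X := light hpU hqU hpq hpx hpx₂ hqx hqx₂ exp exq exp₂ exq₂ epq
  have hqX : q ∉ X := light hqU hpU hpq.symm hqx hqx₂ hpx hpx₂ exq exp exq₂ exp₂ (h.sym _ _ epq)
  -- neighbours
  have np : ∀ w ∈ U, E p w → w = x ∨ w = x₂ ∨ w = q := fun w hw h1 =>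
    nb3 (h.d3 p hpU hpX) f.xU f₂.xU hqU (h.sym _ _ exp) (h.sym _ _ exp₂) epq l.ne hqx.symm hqx₂.symm hw h1
  have nq : ∀ w ∈ U, E q w → w = x ∨ w = x₂ ∨ w = p := fun w hw h1 =>
    nb3 (h.d3 q hqU hqX) f.xU f₂.xU hpU (h.sym _ _ exq) (h.sym _ _ exq₂) (h.sym _ _ epq) l.ne hpx.symm hpx₂.symm hw h1
  have nx : ∀ w ∈ U, E x w → w = a ∨ w = b ∨ w = p ∨ w = q := fun w hw h1 =>
    nb4 f.dx f.aU f.bU hpU hqU f.xa f.xb exp exq f.nab pa.symm qa.symm pb.symm qb.symm hpq hw h1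
  have nx₂ : ∀ w ∈ U, E x₂ w → w = a₂ ∨ w = b₂ ∨ w = p ∨ w = q := fun w hw h1 =>
    nb4 f₂.dx f₂.aU f₂.bU hpU hqU f₂.xa f₂.xb exp₂ exq₂ f₂.nab pa₂.symm qa₂.symm pb₂.symm qb₂.symm hpq hw h1
  -- the smaller graph
  let P : V → Prop := fun v => (v ≠ a ∧ v ≠ b ∧ v ≠ a₂ ∧ v ≠ b₂ ∧ v ≠ o) ∧ v ≠ x ∧ v ≠ x₂ ∧ v ≠ p ∧ v ≠ q
  have hmem : ∀ v, v ∈ U.filter P ↔ v ∈ U ∧ (v ≠ a ∧ v ≠ b ∧ v ≠ a₂ ∧ v ≠ b₂ ∧ v ≠ o) ∧ v ≠ x ∧ v ≠ x₂ ∧ v ≠ p ∧ v ≠ q :=
    fun v => Finset.mem_filter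
  have hVL : VL (U.filter P) E (X1 X x x₂) y z := by
    refine h.restr (Finset.filter_subset _ _) (fun v hv => (mem_X1.mp hv).1) ?_ ?_ ?_
    · intro v hv
      rw [mem_X1] at hv
      rw [hmem]
      exact ⟨h.sub hv.1, ⟨fun h1 => f.aX (h1 ▸ hv.1), fun h1 => f.bX (h1 ▸ hv.1), fun h1 => f₂.aX (h1 ▸ hv.1),
        fun h1 => f₂.bX (h1 ▸ hv.1), fun h1 => hoX (h1 ▸ hv.1)⟩, hv.2.1, hv.2.2, fun h1 => hpX (h1 ▸ hv.1),
        fun h1 => hqX (h1 ▸ hv.1)⟩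
    · intro x' hx'
      rw [mem_X1] at hx'
      obtain ⟨hx', h1, h2⟩ := hx'
      have key : ∀ {s t : V}, Tn X y z x' s t → s ∈ U.filter P := by
        intro s t ts
        have fs := h.tf ts
        obtain ⟨g1, -, g3, -⟩ := h.ne l.t ts h1.symm
        obtain ⟨k1, -, k3, -⟩ := h.ne l.t₂ ts h2.symm
        rw [hmem]
        refine ⟨fs.aU, ⟨g1.symm, g3.symm, k1.symm, k3.symm, l.otok h hoX ts⟩, fun h3 => fs.aX (h3 ▸ f.hx),
          fun h3 => fs.aX (h3 ▸ f₂.hx), ?_, ?_⟩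
        · rintro rfl
          rcases np x' fs.xU fs.ax with h3 | h3 | h3
          · exact h1 h3
          · exact h2 h3
          · exact hqX (h3 ▸ hx')
        · rintro rfl
          rcases nq x' fs.xU fs.ax with h3 | h3 | h3
          · exact h1 h3
          · exact h2 h3
          · exact hpX (h3 ▸ hx')
      exact ⟨key (tn hx'), key (tn hx').symm⟩
    · intro v hv hvX hvX'
      rw [hmem] at hv
      exact absurd (mem_X1.mpr ⟨hvX, hv.2.2.1, hv.2.2.2.1⟩) hvX'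
  obtain ⟨c, hc⟩ := ih _ _ _ _ _ (card_sub (Finset.filter_subset _ _) f.aU fun h1 => ((hmem a).mp h1).2.1.1 rfl) hVL
  obtain ⟨α, -, hα⟩ := l.oc h hoX (c := c) (α := 0) (β := 1) (by decide)
  obtain ⟨β, hβ, -⟩ := fin3_a α α
  obtain ⟨γ, hγ, hγ2⟩ := fin3_a α β
  have eo : ∀ w ∈ U, E o w → w ≠ x ∧ w ≠ x₂ ∧ w ≠ p ∧ w ≠ q := by
    intro w hw how
    refine ⟨?_, ?_, ?_, ?_⟩
    · rintro rfl
      rcases nx o l.oU (h.sym _ _ how) with h1 | h1 | h1 | h1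
      · exact L.oa h1
      · exact L.ob h1
      · exact po h1.symm
      · exact qo h1.symm
    · rintro rfl
      rcases nx₂ o l.oU (h.sym _ _ how) with h1 | h1 | h1 | h1
      · exact L.oa₂ h1
      · exact L.ob₂ h1
      · exact po h1.symm
      · exact qo h1.symm
    · rintro rfl
      rcases np o l.oU (h.sym _ _ how) with h1 | h1 | h1
      · exact l.ox h1
      · exact l.ox₂ h1
      · exact qo h1.symm
    · rintro rfl
      rcases nq o l.oU (h.sym _ _ how) with h1 | h1 | h1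
      · exact l.ox h1
      · exact l.ox₂ h1
      · exact po h1.symm
  let c1 : V → Fin 3 := fun v => if v = x ∨ v = x₂ ∨ v = o then α else if v = p then β else if v = q then γ else c v
  have c1x : c1 x = α := if_pos (Or.inl rfl)
  have c1x₂ : c1 x₂ = α := if_pos (Or.inr (Or.inl rfl))
  have c1o : c1 o = α := if_pos (Or.inr (Or.inr rfl))
  have c1p : c1 p = β := by
    show (if p = x ∨ p = x₂ ∨ p = o then α else if p = p then β else if p = q then γ else c p) = β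
    rw [if_neg, if_pos rfl]
    rintro (h1 | h1 | h1)
    · exact hpx h1
    · exact hpx₂ h1
    · exact po h1
  have c1q : c1 q = γ := by
    show (if q = x ∨ q = x₂ ∨ q = o then α else if q = p then β else if q = q then γ else c q) = γ
    rw [if_neg, if_neg hpq.symm, if_pos rfl]
    rintro (h1 | h1 | h1)
    · exact hqx h1
    · exact hqx₂ h1
    · exact qo h1
  have c1c : ∀ v, v ≠ x → v ≠ x₂ → v ≠ o → v ≠ p → v ≠ q → c1 v = c v := by
    intro v h1 h2 h3 h4 h5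
    show (if v = x ∨ v = x₂ ∨ v = o then α else if v = p then β else if v = q then γ else c v) = c v
    rw [if_neg, if_neg h4, if_neg h5]
    rintro (h6 | h6 | h6)
    · exact h1 h6
    · exact h2 h6
    · exact h3 h6
  refine L.ext h.sym (c := c1) ?_ (Or.inl (c1o.trans c1x.symm))
  -- one end among the new points
  have hone : ∀ u ∈ U, (u = x ∨ u = x₂ ∨ u = o ∨ u = p ∨ u = q) → ∀ v ∈ U, (v ≠ a ∧ v ≠ b ∧ v ≠ a₂ ∧ v ≠ b₂) →
      E u v → c1 u ≠ c1 v := by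
    rintro u hu (rfl | rfl | rfl | rfl | rfl) v hv ⟨v1, v2, v3, v4⟩ huv
    · rcases nx v hv huv with h1 | h1 | h1 | h1
      · exact absurd h1 v1
      · exact absurd h1 v2
      · rw [h1, c1x, c1p]
        exact hβ.symm
      · rw [h1, c1x, c1q]
        exact hγ.symm
    · rcases nx₂ v hv huv with h1 | h1 | h1 | h1
      · exact absurd h1 v3
      · exact absurd h1 v4
      · rw [h1, c1x₂, c1p]
        exact hβ.symm
      · rw [h1, c1x₂, c1q]
        exact hγ.symm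
    · obtain ⟨h1, h2, h3, h4⟩ := eo v hv huv
      rw [c1o, c1c v h1 h2 (h.nn huv).symm h3 h4]
      exact (hα v hv huv v1 v3).symm
    · rcases np v hv huv with h1 | h1 | h1
      · rw [h1, c1x, c1p]
        exact hβ
      · rw [h1, c1x₂, c1p]
        exact hβ
      · rw [h1, c1q, c1p]
        exact hγ2.symm
    · rcases nq v hv huv with h1 | h1 | h1
      · rw [h1, c1x, c1q]
        exact hγ
      · rw [h1, c1x₂, c1q]
        exact hγ
      · rw [h1, c1q, c1p]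
        exact hγ2
  intro u hu hu' v hv hv' huv
  by_cases h1 : u = x ∨ u = x₂ ∨ u = o ∨ u = p ∨ u = q
  · exact hone u hu h1 v hv hv' huv
  · by_cases h2 : v = x ∨ v = x₂ ∨ v = o ∨ v = p ∨ v = q
    · exact (hone v hv h2 u hu hu' (h.sym _ _ huv)).symm
    · push Not at h1 h2
      obtain ⟨a1, a2, a3, a4, a5⟩ := h1
      obtain ⟨b1, b2, b3, b4, b5⟩ := h2
      rw [c1c u a1 a2 a3 a4 a5, c1c v b1 b2 b3 b4 b5]
      exact hc u ((hmem u).mpr ⟨hu, ⟨hu'.1, hu'.2.1, hu'.2.2.1, hu'.2.2.2, a3⟩, a1, a2, a4, a5⟩) v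
        ((hmem v).mpr ⟨hv, ⟨hv'.1, hv'.2.1, hv'.2.2.1, hv'.2.2.2, b3⟩, b1, b2, b4, b5⟩) huv

theorem case1a (h : VL U E X y z) (ih : IHn V U.card) (l : Lp U E X y z x a b x₂ a₂ b₂ o) (hoX : o ∉ X) :
    Col3 U E := by
  by_cases hK : NoK4 (U1 U a b a₂ b₂ o) (ade E x x₂)
  · exact case1a_n h ih l hoX hK
  · rw [noK4_iff (ade_symm h.sym) (ade_irr h.irr l.ne)] at hK
    push Not at hK
    obtain ⟨K, hK⟩ := hK
    exact case1a_k h ih l hoX hK

end

end Pool.Agent.Helper91.Inj
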