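import Pool.Agent.Helper91.Inj.G2c

/-!
G2, part 4: loops over a heavy point.
-/

set_option autoImplicit false

namespace Pool.Agent.Helper91.Inj

open Classical Pool.Agent.Helper65.Inj

section

variable {V : Type} {U : Finset V} {E : V → V → Prop} {X : Finset V} {y z : V → V} {x a b x₂ a₂ b₂ o : V}

/-- identification of `x` with `o` -/
def idn (E : V → V → Prop) (x o : V) : V → V → Prop := fun u v => E u v ∨ (u = o ∧ v ≠ o ∧ E x v) ∨ (v = o ∧ u ≠ o ∧ E x u)

theorem case1b (h : VL U E X y z) (ih : IHn V U.card) (l : Lp U E X y z x a b x₂ a₂ b₂ o) (hoX : o ∈ X) :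
    Col3 U E := by
  have L := l.lf h
  have f := L.f
  have f₂ := L.f₂
  have hU : U1 U a b a₂ b₂ x ⊆ U := fun v hv => (mem_U1.mp hv).1
  have fo := h.tf (tn hoX)
  have hoU : o ∈ U1 U a b a₂ b₂ x := mem_U1.mpr ⟨l.oU, L.oa, L.ob, L.oa₂, L.ob₂, l.ox⟩
  -- neighbours of `o`
  have no : ∀ w ∈ U, E o w → w = y o ∨ w = z o ∨ w = a ∨ w = a₂ := by
    obtain ⟨g1, g2, -, -⟩ := h.ne l.t (tn hoX) l.ox.symm
    obtain ⟨k1, k2, -, -⟩ := h.ne l.t₂ (tn hoX) l.ox₂.symm
    intro w hw h1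
    exact nb4 fo.dx fo.aU fo.bU f.aU f₂.aU fo.xa fo.xb (h.sym _ _ l.ao) l.oa fo.nab g1.symm k1.symm g2.symm k2.symm
      L.n2 hw h1
  have hxo : ¬ E x o := by
    intro h1
    rcases no x f.xU (h.sym _ _ h1) with h2 | h2 | h2 | h2
    · exact fo.aX (h2 ▸ f.hx)
    · exact fo.bX (h2 ▸ f.hx)
    · exact f.nxa h2
    · exact L.xa h2
  have hox : ¬ E o x := fun h1 => hxo (h.sym _ _ h1)
  -- degrees
  have hle : ∀ {U' : Finset V}, (∀ w ∈ U1 U a b a₂ b₂ x, w ∈ U') → x ∈ U' → ∀ v, v ≠ o →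
      dg (U1 U a b a₂ b₂ x) (idn E x o) v ≤ dg U' E v := by
    intro U' hU' hxU' v hvo
    apply dg_le_inj fun w => if w = o ∧ ¬ E v o then x else w
    · intro w hw h1
      beta_reduce
      by_cases h2 : w = o ∧ ¬ E v o
      · rw [if_pos h2]
        refine ⟨hxU', ?_⟩
        rcases h1 with h1 | ⟨h1, -⟩ | ⟨-, -, h1⟩
        · exact absurd (h2.1 ▸ h1) h2.2
        · exact absurd h1 hvo
        · exact h.sym _ _ h1
      · rw [if_neg h2]
        refine ⟨hU' w hw, ?_⟩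
        rcases h1 with h1 | ⟨h1, -⟩ | ⟨h3, -, h1⟩
        · exact h1
        · exact absurd h1 hvo
        · subst h3
          by_contra h4
          exact h2 ⟨rfl, h4⟩
    · intro w hw w' hw' _ _ h3
      beta_reduce at h3
      have hwx : w ≠ x := (mem_U1.mp hw).2.2.2.2.2
      have hwx' : w' ≠ x := (mem_U1.mp hw').2.2.2.2.2
      by_cases h1 : w = o ∧ ¬ E v o
      · rw [if_pos h1] at h3
        by_cases h2 : w' = o ∧ ¬ E v o
        · exact h1.1.trans h2.1.symm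
        · rw [if_neg h2] at h3
          exact absurd h3.symm hwx'
      · rw [if_neg h1] at h3
        by_cases h2 : w' = o ∧ ¬ E v o
        · rw [if_pos h2] at h3
          exact absurd h3 hwx
        · rw [if_neg h2] at h3
          exact h3
  -- neighbours of `x` left
  have hx2 : ((U1 U a b a₂ b₂ x).filter fun w => E x w).card ≤ 2 := by
    have h1 := dg_lt2 hU f.aU (fun h2 => (mem_U1.mp h2).2.1 rfl) f.xa f.bU (fun h2 => (mem_U1.mp h2).2.2.1 rfl) f.xb f.nab
    have h2 := f.dx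
    have h3 : dg (U1 U a b a₂ b₂ x) E x = ((U1 U a b a₂ b₂ x).filter fun w => E x w).card := rfl
    omega
  have hno : ∀ w ∈ U1 U a b a₂ b₂ x, idn E x o o w → w = y o ∨ w = z o ∨ w ∈ (U1 U a b a₂ b₂ x).filter fun w => E x w := by
    intro w hw h1
    rcases h1 with h1 | ⟨-, -, h1⟩ | ⟨-, h1, -⟩
    · rcases no w (hU hw) h1 with h2 | h2 | h2 | h2
      · exact Or.inl h2
      · exact Or.inr (Or.inl h2)
      · exact absurd h2 (mem_U1.mp hw).2.1
      · exact absurd h2 (mem_U1.mp hw).2.2.2.1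
    · exact Or.inr (Or.inr (Finset.mem_filter.mpr ⟨hw, h1⟩))
    · exact absurd rfl h1
  have hsym : ∀ u v, idn E x o u v → idn E x o v u := by
    rintro u v (h1 | ⟨h1, h2, h3⟩ | ⟨h1, h2, h3⟩)
    · exact Or.inl (h.sym _ _ h1)
    · exact Or.inr (Or.inr ⟨h1, h2, h3⟩)
    · exact Or.inr (Or.inl ⟨h1, h2, h3⟩)
  have hirr : ∀ u, ¬ idn E x o u u := by
    rintro u (h1 | ⟨h1, h2, -⟩ | ⟨h1, h2, -⟩)
    · exact h.irr u h1
    · exact h2 h1
    · exact h2 h1
  have hcn : ∀ x' ∈ X1 X x x₂, ∀ w ∈ U1 U a b a₂ b₂ x, idn E x o (y x') w → idn E x o (z x') w → w = x' := by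
    intro x' hx' w hw h1 h2
    rw [mem_X1] at hx'
    have f' := h.tf (tn hx'.1)
    have hyo : y x' ≠ o := fun h3 => f'.aX (h3 ▸ hoX)
    have hzo : z x' ≠ o := fun h3 => f'.bX (h3 ▸ hoX)
    by_cases hwo : w = o
    · subst hwo
      by_contra hne
      have hne' : x' ≠ w := fun h3 => hne h3.symm
      have key : ∀ {s t : V}, Tn X y z x' s t → s ≠ w → idn E x w s w → E x s := by
        intro s t ts hs h3
        rcases h3 with h3 | ⟨h3, -⟩ | ⟨-, -, h3⟩
        · exfalso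
          have fs := h.tf ts
          obtain ⟨g1, -, -, -⟩ := h.ne ts (tn hoX) hne'
          obtain ⟨-, g2, -, -⟩ := h.ne ts (tn hoX) hne'
          obtain ⟨k1, -, -, -⟩ := h.ne ts l.t hx'.2.1
          obtain ⟨k2, -, -, -⟩ := h.ne ts l.t₂ hx'.2.2
          rcases no s fs.aU (h.sym _ _ h3) with h4 | h4 | h4 | h4
          · exact g1 h4
          · exact g2 h4
          · exact k1 h4
          · exact k2 h4
        · exact absurd h3 hs
        · exact h3
      have h3 := key (tn hx'.1) hyo h1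
      have h4 := key (tn hx'.1).symm hzo h2
      exact hx'.2.1 (f'.cn x f.xU (h.sym _ _ h3) (h.sym _ _ h4)).symm
    · have key : ∀ {s : V}, s ≠ o → idn E x o s w → E s w := by
        intro s hs h3
        rcases h3 with h3 | ⟨h3, -⟩ | ⟨h3, -⟩
        · exact h3
        · exact absurd h3 hs
        · exact absurd h3 hwo
      exact f'.cn w (hU hw) (key hyo h1) (key hzo h2)
  have hd3 : ∀ v ∈ U1 U a b a₂ b₂ x, v ∉ X1 X x x₂ → dg (U1 U a b a₂ b₂ x) (idn E x o) v ≤ 3 := by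
    intro v hv hvX
    have hvx : v ≠ x := (mem_U1.mp hv).2.2.2.2.2
    by_cases hv₂ : v = x₂
    · have h1 := hle (U' := U.erase a₂) (fun w hw => Finset.mem_erase.mpr ⟨(mem_U1.mp hw).2.2.2.1, hU hw⟩)
        (Finset.mem_erase.mpr ⟨L.xa, f.xU⟩) x₂ l.ox₂.symm
      have h2 := dg_erase f₂.aU f₂.xa
      have h3 := f₂.dx
      rw [hv₂]
      omega
    · have h3 : v ∉ X := fun h3 => hvX (mem_X1.mpr ⟨h3, hvx, hv₂⟩)
      have hvo : v ≠ o := fun h4 => h3 (h4 ▸ hoX)
      exact le_trans (hle hU f.xU v hvo) (h.d3 v (hU hv) h3)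
  have hk4 : NoK4 (U1 U a b a₂ b₂ x) (idn E x o) := by
    rw [noK4_iff hsym hirr]
    intro K hK
    by_cases hoK : o ∈ K
    · -- a light point of the token of `o` is in `K`
      have key : ∀ {s t : V}, Tn X y z o s t → s ∈ K → False := by
        intro s t ts hs
        have fs := h.tf ts
        have hsU : s ∈ U1 U a b a₂ b₂ x := hK.sub hs
        have hsd : dg (U1 U a b a₂ b₂ x) (idn E x o) s ≤ 3 := hd3 s hsU fun h1 => fs.aX (mem_X1.mp h1).1
        obtain ⟨-, g2, -, g4⟩ := h.ne l.t ts l.ox.symm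
        obtain ⟨-, k2, -, k4⟩ := h.ne l.t₂ ts l.ox₂.symm
        have htU : t ∈ U1 U a b a₂ b₂ x := mem_U1.mpr ⟨fs.bU, g2.symm, g4.symm, k2.symm, k4.symm,
          fun h1 => fs.bX (h1 ▸ f.hx)⟩
        have htK : t ∈ K := hK.nb hs hsd htU (Or.inl fs.ab)
        obtain ⟨p, q, hp, hq, hpq, hps, hpt, hqs, hqt, hall⟩ := hK.two hs htK fs.nab
        have hnew : ∀ w ∈ K, w ≠ s → w ≠ t → w = o := by
          intro w hw hws hwt
          have e1 := hK.ad s hs w hw hws.symm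
          have e2 := hK.ad t htK w hw hwt.symm
          rcases ts.or with ⟨h1, h2⟩ | ⟨h1, h2⟩
          · exact hcn o (mem_X1.mpr ⟨hoX, l.ox, l.ox₂⟩) w (hK.sub hw) (h1 ▸ e1) (h2 ▸ e2)
          · exact hcn o (mem_X1.mpr ⟨hoX, l.ox, l.ox₂⟩) w (hK.sub hw) (h2 ▸ e2) (h1 ▸ e1)
        exact hpq ((hnew p hp hps hpt).trans (hnew q hq hqs hqt).symm)
      have hy : y o ∉ K := fun h1 => key (tn hoX) h1
      have hz : z o ∉ K := fun h1 => key (tn hoX).symm h1
      have h1 : K.erase o ⊆ (U1 U a b a₂ b₂ x).filter fun w => E x w := by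
        intro w hw
        have hwK := Finset.mem_of_mem_erase hw
        rcases hno w (hK.sub hwK) (hK.ad o hoK w hwK (Finset.ne_of_mem_erase hw).symm) with h2 | h2 | h2
        · exact absurd (h2 ▸ hwK) hy
        · exact absurd (h2 ▸ hwK) hz
        · exact h2
      have h2 := Finset.card_le_card h1
      rw [Finset.card_erase_of_mem hoK, hK.c4] at h2
      omega
    · apply h.nk K
      refine ⟨fun u hu => hU (hK.sub hu), hK.c4, fun u hu v hv huv => ?_⟩
      rcases hK.ad u hu v hv huv with h1 | ⟨h1, -⟩ | ⟨h1, -⟩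
      · exact h1
      · exact absurd (h1 ▸ hu) hoK
      · exact absurd (h1 ▸ hv) hoK
  have hVL : VL (U1 U a b a₂ b₂ x) (idn E x o) (X1 X x x₂) y z := {
    sym := hsym
    irr := hirr
    sub := by
      intro v hv
      rw [mem_X1] at hv
      exact mem_U1.mpr ⟨h.sub hv.1, fun h1 => f.aX (h1 ▸ hv.1), fun h1 => f.bX (h1 ▸ hv.1), fun h1 => f₂.aX (h1 ▸ hv.1),
        fun h1 => f₂.bX (h1 ▸ hv.1), hv.2.1⟩
    tk := by
      intro x' hx'
      rw [mem_X1] at hx'
      obtain ⟨hx', h1, h2⟩ := hx'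
      have f' := h.tf (tn hx')
      obtain ⟨g1, g2, g3, g4⟩ := h.ne l.t (tn hx') h1.symm
      obtain ⟨k1, k2, k3, k4⟩ := h.ne l.t₂ (tn hx') h2.symm
      exact ⟨mem_U1.mpr ⟨f'.aU, g1.symm, g3.symm, k1.symm, k3.symm, fun h3 => f'.aX (h3 ▸ f.hx)⟩,
        mem_U1.mpr ⟨f'.bU, g2.symm, g4.symm, k2.symm, k4.symm, fun h3 => f'.bX (h3 ▸ f.hx)⟩,
        fun h3 => f'.aX (mem_X1.mp h3).1, fun h3 => f'.bX (mem_X1.mp h3).1, Or.inl f'.xa, Or.inl f'.xb, Or.inl f'.ab⟩
    dis := fun x' hx' x'' hx'' => h.dis x' (mem_X1.mp hx').1 x'' (mem_X1.mp hx'').1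
    d4 := by
      intro x' hx'
      rw [mem_X1] at hx'
      by_cases hxo' : x' = o
      · rw [hxo']
        have h1 : (U1 U a b a₂ b₂ x).filter (fun w => idn E x o o w) ⊆
            insert (y o) (insert (z o) ((U1 U a b a₂ b₂ x).filter fun w => E x w)) := by
          intro w hw
          rw [Finset.mem_filter] at hw
          rw [Finset.mem_insert, Finset.mem_insert]
          exact hno w hw.1 hw.2
        have h2 := Finset.card_le_card h1
        have h3 := Finset.card_insert_le (y o) (insert (z o) ((U1 U a b a₂ b₂ x).filter fun w => E x w))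
        have h4 := Finset.card_insert_le (z o) ((U1 U a b a₂ b₂ x).filter fun w => E x w)
        show ((U1 U a b a₂ b₂ x).filter fun w => idn E x o o w).card ≤ 4
        omega
      · exact le_trans (hle hU f.xU x' hxo') (h.d4 x' hx'.1)
    d3 := hd3
    cn := hcn
    k4 := hk4 }
  obtain ⟨c, hc⟩ := ih _ _ _ _ _ (card_sub hU f.aU fun h1 => (mem_U1.mp h1).2.1 rfl) hVL
  refine L.ext h.sym (c := fun v => if v = x then c o else c v) ?_ ?_
  · have hone : ∀ v ∈ U, (v ≠ a ∧ v ≠ b ∧ v ≠ a₂ ∧ v ≠ b₂) → E x v → c o ≠ c v := by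
      intro v hv hv' hxv
      have hvx : v ≠ x := (h.nn hxv).symm
      have hvo : v ≠ o := fun h1 => hxo (h1 ▸ hxv)
      exact hc o hoU v (mem_U1.mpr ⟨hv, hv'.1, hv'.2.1, hv'.2.2.1, hv'.2.2.2, hvx⟩) (Or.inr (Or.inl ⟨rfl, hvo, hxv⟩))
    intro u hu hu' v hv hv' huv
    beta_reduce
    by_cases hux : u = x
    · subst hux
      rw [if_pos rfl, if_neg (h.nn huv).symm]
      exact hone v hv hv' huv
    · by_cases hvx : v = x
      · subst hvx
        rw [if_neg hux, if_pos rfl]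
        exact (hone u hu hu' (h.sym _ _ huv)).symm
      · rw [if_neg hux, if_neg hvx]
        exact hc u (mem_U1.mpr ⟨hu, hu'.1, hu'.2.1, hu'.2.2.1, hu'.2.2.2, hux⟩) v
          (mem_U1.mpr ⟨hv, hv'.1, hv'.2.1, hv'.2.2.1, hv'.2.2.2, hvx⟩) (Or.inl huv)
  · beta_reduce
    rw [if_neg l.ox, if_pos rfl]
    exact Or.inl rfl

end

end Pool.Agent.Helper91.Inj
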